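import Mathlib

/-! Deformation of finitely many real numbers along a transcendental one. -/

namespace Pool.Agent.H552Z.TP

open Polynomial Filter Topology IntermediateField

lemma alg_of_hom {R S : Type} [Field R] [Field S] [Algebra R ℝ] [Algebra S ℝ] (f : R →+* S)
    (h : (algebraMap S ℝ).comp f = algebraMap R ℝ) {x : ℝ} (hx : IsAlgebraic R x) :
    IsAlgebraic S x := by
  obtain ⟨p, hp0, hp⟩ := hx
  refine ⟨p.map f, Polynomial.map_ne_zero hp0, ?_⟩
  rw [aeval_def, eval₂_map, h]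
  exact hp

lemma sign_change (m : ℝ[X]) {θ : ℝ} (h0 : m.eval θ = 0) (h1 : m.derivative.eval θ ≠ 0) :
    (∃ y, m.eval y < 0) ∧ ∃ y, 0 < m.eval y := by
  constructor
  · by_contra h
    push Not at h
    have : IsLocalMin (fun y => m.eval y) θ := Eventually.of_forall fun y => by
      simpa [h0] using h y
    exact h1 (this.hasDerivAt_eq_zero (m.hasDerivAt θ))
  · by_contra h
    push Not at h
    have : IsLocalMax (fun y => m.eval y) θ := Eventually.of_forall fun y => by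
      simpa [h0] using h y
    exact h1 (this.hasDerivAt_eq_zero (m.hasDerivAt θ))

theorem deform_aux (k : Type) [Field k] [CharZero k] [Algebra k ℝ] (b : ℝ)
    (hb : Transcendental k b) (halg : ∀ x : ℝ, IsAlgebraic k⟮b⟯ x) (S : Finset ℝ) :
    ∃ (E : Type) (_ : Field E) (ψ0 ψ1 : E →+* ℝ), (∀ c ∈ S, ∃ e, ψ0 e = c) ∧
      (∀ a : k, ∃ e, ψ0 e = algebraMap k ℝ a ∧ ψ1 e = algebraMap k ℝ a) ∧
      ∃ e, ψ0 e = b ∧ b < ψ1 e := by
  have hq : ∀ q : ℚ, Transcendental k (b + q) := by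
    intro q hq
    apply hb
    have h2 : IsAlgebraic k ((q : ℚ) : ℝ) := by
      have := isAlgebraic_algebraMap (R := k) (A := ℝ) (q : k)
      simpa using this
    simpa using hq.sub h2
  let φ : ℚ → (k⟮b⟯ →+* ℝ) := fun q =>
    (((k⟮b + q⟯).val.comp (RatFunc.algEquivOfTranscendental (b + q) (hq q)).toAlgHom).comp
      (RatFunc.algEquivOfTranscendental b hb).symm.toAlgHom).toRingHom
  have φk : ∀ q (a : k), φ q (algebraMap k _ a) = algebraMap k ℝ a := fun q a =>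
    AlgHom.commutes _ a
  have φb : ∀ q, φ q (AdjoinSimple.gen k b) = b + q := by
    intro q
    simp [φ]
  have φlim : ∀ c : k⟮b⟯, Tendsto (fun q => φ q c) (𝓝[>] 0) (𝓝 (c : ℝ)) := by
    intro c
    obtain ⟨u, rfl⟩ := (RatFunc.algEquivOfTranscendental b hb).surjective c
    have e1 : ∀ q, φ q (RatFunc.algEquivOfTranscendental b hb u) =
        aeval (b + q) u.num / aeval (b + q) u.denom := by
      intro q
      simp [φ, RatFunc.algEquivOfTranscendental_apply]
    simp only [e1, RatFunc.algEquivOfTranscendental_apply]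
    have t0 : Tendsto (fun q : ℚ => b + (q : ℝ)) (𝓝[>] 0) (𝓝 b) := by
      have : Continuous fun q : ℚ => b + (q : ℝ) := continuous_const.add Rat.continuous_coe_real
      have h2 := this.tendsto 0
      simp only [Rat.cast_zero, add_zero] at h2
      exact h2.mono_left nhdsWithin_le_nhds
    refine ((u.num.continuous_aeval.tendsto b).comp t0).div
      ((u.denom.continuous_aeval.tendsto b).comp t0) ?_
    intro h
    exact hb ⟨u.denom, u.denom_ne_zero, h⟩
  let F := IntermediateField.adjoin k⟮b⟯ (S : Set ℝ)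
  have : FiniteDimensional k⟮b⟯ F :=
    IntermediateField.finiteDimensional_adjoin fun x _ => (halg x).isIntegral
  obtain ⟨α, hα⟩ := Field.exists_primitive_element k⟮b⟯ F
  set θ : ℝ := α.1 with hθ
  have hint : IsIntegral k⟮b⟯ θ := (halg θ).isIntegral
  set m := minpoly k⟮b⟯ θ with hm
  have : Fact (Irreducible m) := ⟨minpoly.irreducible hint⟩
  have hsep : m.Separable := (minpoly.irreducible hint).separable
  have hroot : aeval θ m = 0 := minpoly.aeval _ _
  obtain ⟨⟨y1, hy1⟩, ⟨y2, hy2⟩⟩ := sign_change (m.map (algebraMap _ ℝ)) (θ := θ)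
    (by rw [eval_map_algebraMap]; exact hroot)
    (by rw [derivative_map, eval_map_algebraMap]; exact hsep.aeval_derivative_ne_zero hroot)
  have lim : ∀ y : ℝ, Tendsto (fun q => m.eval₂ (φ q) y) (𝓝[>] 0)
      (𝓝 ((m.map (algebraMap _ ℝ)).eval y)) := by
    intro y
    simp only [eval_map, eval₂_eq_sum_range]
    exact tendsto_finsetSum _ fun i _ => (φlim _).mul_const _
  obtain ⟨q, ⟨q1, q2⟩, q0⟩ := ((((lim y1).eventually (gt_mem_nhds hy1)).and
    ((lim y2).eventually (lt_mem_nhds hy2))).and self_mem_nhdsWithin).exists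
  obtain ⟨θ', hθ'⟩ : ∃ θ' : ℝ, m.eval₂ (φ q) θ' = 0 := by
    have hc : Continuous fun y : ℝ => m.eval₂ (φ q) y := m.continuous_eval₂ _
    exact mem_range_of_exists_le_of_exists_ge hc ⟨y1, q1.le⟩ ⟨y2, q2.le⟩
  let ψ0 : AdjoinRoot m →ₐ[k⟮b⟯] ℝ := AdjoinRoot.liftAlgHom m (Algebra.ofId _ _) θ hroot
  refine ⟨AdjoinRoot m, inferInstance, ψ0.toRingHom, AdjoinRoot.lift (φ q) θ' hθ', ?_, ?_, ?_⟩
  · intro c hc
    have h1 : (⟨c, subset_adjoin _ _ hc⟩ : F) ∈ (k⟮b⟯)⟮α⟯ := by rw [hα]; trivial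
    have h2 : c ∈ (k⟮b⟯)⟮θ⟯ := by
      have := (IntermediateField.mem_lift (⟨c, subset_adjoin _ _ hc⟩ : F)).2 h1
      rwa [lift_adjoin_simple] at this
    have h3 : (k⟮b⟯)⟮θ⟯ ≤ ψ0.fieldRange := by
      rw [adjoin_simple_le_iff]
      exact ⟨AdjoinRoot.root m, AdjoinRoot.liftAlgHom_root _ _ _ _⟩
    exact h3 h2
  · intro a
    refine ⟨AdjoinRoot.of m (algebraMap k _ a), ?_, ?_⟩
    · exact ψ0.commutes _
    · rw [AdjoinRoot.lift_of, φk]
  · refine ⟨AdjoinRoot.of m (AdjoinSimple.gen k b), ?_, ?_⟩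
    · exact ψ0.commutes _
    · rw [AdjoinRoot.lift_of, φb]
      have : (0 : ℝ) < q := by exact_mod_cast q0
      linarith

theorem deform' (F : Type) [Field F] [Algebra F ℝ] (b : ℝ) (hb : Transcendental F b)
    (S : Finset ℝ) :
    ∃ (E : Type) (_ : Field E) (ψ0 ψ1 : E →+* ℝ), (∀ c ∈ S, ∃ e, ψ0 e = c) ∧
      (∀ a : F, ∃ e, ψ0 e = algebraMap F ℝ a ∧ ψ1 e = algebraMap F ℝ a) ∧
      ∃ e, ψ0 e = b ∧ b < ψ1 e := by
  have h1 : AlgebraicIndepOn F id ({b} : Set ℝ) := by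
    rw [AlgebraicIndepOn, algebraicIndependent_unique_type_iff]
    exact hb
  obtain ⟨t, ht, hB⟩ := exists_isTranscendenceBasis_superset h1
  have hbt : b ∈ t := ht rfl
  obtain ⟨k, hkdef⟩ : ∃ k, k = IntermediateField.adjoin F (t \ {b}) := ⟨_, rfl⟩
  have hk : Transcendental k b := by
    rw [hkdef, IntermediateField.transcendental_adjoin_iff]
    have := hB.1.transcendental_adjoin (s := {x : t | x.1 ≠ b}) (i := ⟨b, hbt⟩) (by simp)
    have e : ((↑) : t → ℝ) '' {x : t | x.1 ≠ b} = t \ {b} := by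
      ext x; simp [and_comm]
    rwa [e] at this
  have halg : ∀ x : ℝ, IsAlgebraic k⟮b⟯ x := by
    intro x
    have h2 := hB.isAlgebraic_field.isAlgebraic x
    have h3 : ∀ y ∈ IntermediateField.adjoin F (Set.range ((↑) : t → ℝ)), y ∈ k⟮b⟯ := by
      have : IntermediateField.adjoin F (Set.range ((↑) : t → ℝ)) ≤ (k⟮b⟯).restrictScalars F := by
        rw [adjoin_le_iff]
        rintro _ ⟨y, rfl⟩
        by_cases hy : y.1 = b
        · rw [hy]; exact mem_adjoin_simple_self k b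
        · exact (k⟮b⟯).algebraMap_mem ⟨y, hkdef ▸ subset_adjoin _ _ ⟨y.2, hy⟩⟩
      exact fun y hy => this hy
    exact alg_of_hom (S := k⟮b⟯) (RingHom.codRestrict
      (algebraMap (IntermediateField.adjoin F (Set.range ((↑) : t → ℝ))) ℝ) k⟮b⟯
      fun y => h3 y.1 y.2) (RingHom.ext fun y => rfl) h2
  have : CharZero k := (algebraMap k ℝ).charZero
  obtain ⟨E, _, ψ0, ψ1, a1, a2, a3⟩ := deform_aux k b hk halg S
  exact ⟨E, inferInstance, ψ0, ψ1, a1, fun a => a2 (algebraMap F k a), a3⟩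

theorem deform (s b : ℝ) (hb : Transcendental ℚ⟮s⟯ b) (S : Finset ℝ) :
    ∃ (E : Type) (_ : Field E) (ψ0 ψ1 : E →+* ℝ), (∀ c ∈ S, ∃ e, ψ0 e = c) ∧
      (∃ e, ψ0 e = s ∧ ψ1 e = s) ∧ ∃ e, ψ0 e = b ∧ b < ψ1 e := by
  obtain ⟨E, _, ψ0, ψ1, a1, a2, a3⟩ := deform' ℚ⟮s⟯ b hb S
  exact ⟨E, inferInstance, ψ0, ψ1, a1, a2 (AdjoinSimple.gen ℚ s), a3⟩

end Pool.Agent.H552Z.TP
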