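import Mathlib

/-! Noncommutative rational expressions, their evaluation, and trace positivity. -/

namespace Pool.Agent.H552Z.TP

/-- Noncommutative rational expressions over `ℝ` in the variables `x_i`, `i : Fin g`: they are
built from real constants and the variables by sums, products and inverses. -/
inductive RExpr (g : ℕ) : Type
  | const (c : ℝ) : RExpr g
  | var (i : Fin g) : RExpr g
  | add (e f : RExpr g) : RExpr g
  | mul (e f : RExpr g) : RExpr g
  | inv (e : RExpr g) : RExpr g

namespace RExpr

variable {g : ℕ}

/-- The value of an expression at a tuple `X` of elements of a real algebra (meaningful when `X`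
lies in the domain of the expression). -/
noncomputable def eval {A : Type} [Ring A] [Algebra ℝ A] (X : Fin g → A) : RExpr g → A
  | const c => algebraMap ℝ A c
  | var i => X i
  | add e f => eval X e + eval X f
  | mul e f => eval X e * eval X f
  | inv e => Ring.inverse (eval X e)

/-- `X` lies in the domain of the expression: every inverse taken is that of an invertible
element. -/
def Dom {A : Type} [Ring A] [Algebra ℝ A] (X : Fin g → A) : RExpr g → Prop
  | const _ => True
  | var _ => True
  | add e f => Dom X e ∧ Dom X f
  | mul e f => Dom X e ∧ Dom X f
  | inv e => Dom X e ∧ IsUnit (eval X e)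

/-- The involution: it fixes constants and variables and reverses products. -/
def adj : RExpr g → RExpr g
  | const c => const c
  | var i => var i
  | add e f => add (adj e) (adj f)
  | mul e f => mul (adj f) (adj e)
  | inv e => inv (adj e)

/-- An expression is nondegenerate (it represents an element of the free skew field) when its
domain contains a tuple of real `n × n` matrices for some `n ≥ 1`. -/
def Nondegenerate (e : RExpr g) : Prop :=
  ∃ n : ℕ, 1 ≤ n ∧ ∃ X : Fin g → Matrix (Fin n) (Fin n) ℝ, Dom X e

end RExpr

/-- `tr p(X) ≥ 0` for all tuples `X` of real symmetric matrices of every size. -/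
def TracePositive {g : ℕ} (p : FreeAlgebra ℝ (Fin g)) : Prop :=
  ∀ (n : ℕ) (X : Fin g → Matrix (Fin n) (Fin n) ℝ), (∀ i, (X i).IsSymm) →
    0 ≤ (FreeAlgebra.lift ℝ X p).trace

end Pool.Agent.H552Z.TP
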