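import Pool.Agent.H552Z.TP.Defs

/-! Functoriality and genericity of the evaluation of rational expressions. -/

namespace Pool.Agent.H552Z.TP

open Matrix Polynomial

namespace RExpr

variable {g : ℕ}

/-- evaluation with arbitrary values of the constants -/
noncomputable def evK {A : Type} [Ring A] (κ : ℝ → A) (X : Fin g → A) : RExpr g → A
  | const c => κ c
  | var i => X i
  | add e f => evK κ X e + evK κ X f
  | mul e f => evK κ X e * evK κ X f
  | inv e => Ring.inverse (evK κ X e)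

/-- domain with arbitrary values of the constants -/
def DomK {A : Type} [Ring A] (κ : ℝ → A) (X : Fin g → A) : RExpr g → Prop
  | const _ => True
  | var _ => True
  | add e f => DomK κ X e ∧ DomK κ X f
  | mul e f => DomK κ X e ∧ DomK κ X f
  | inv e => DomK κ X e ∧ IsUnit (evK κ X e)

/-- the constants that occur -/
noncomputable def consts : RExpr g → Finset ℝ
  | const c => {c}
  | var _ => ∅
  | add e f => consts e ∪ consts f
  | mul e f => consts e ∪ consts f
  | inv e => consts e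

lemma eval_eq {A : Type} [Ring A] [Algebra ℝ A] (X : Fin g → A) (e : RExpr g) :
    eval X e = evK (algebraMap ℝ A) X e := by
  induction e <;> simp [eval, evK, *]

lemma dom_iff {A : Type} [Ring A] [Algebra ℝ A] (X : Fin g → A) (e : RExpr g) :
    Dom X e ↔ DomK (algebraMap ℝ A) X e := by
  induction e <;> simp [Dom, DomK, eval_eq, *]

lemma map_K {A B F : Type} [Ring A] [Ring B] [FunLike F A B] [RingHomClass F A B] (f : F)
    {κ : ℝ → A} {X : Fin g → A} {κ' : ℝ → B} {X' : Fin g → B} (hX : ∀ i, X' i = f (X i))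
    {e : RExpr g} (hκ : ∀ c ∈ consts e, κ' c = f (κ c)) (h : DomK κ X e) :
    DomK κ' X' e ∧ evK κ' X' e = f (evK κ X e) := by
  induction e with
  | const c => exact ⟨trivial, hκ c (by simp [consts])⟩
  | var i => exact ⟨trivial, hX i⟩
  | add e1 e2 i1 i2 =>
    obtain ⟨a1, b1⟩ := i1 (fun c hc => hκ c (by simp [consts, hc])) h.1
    obtain ⟨a2, b2⟩ := i2 (fun c hc => hκ c (by simp [consts, hc])) h.2
    exact ⟨⟨a1, a2⟩, by simp [evK, b1, b2]⟩
  | mul e1 e2 i1 i2 =>
    obtain ⟨a1, b1⟩ := i1 (fun c hc => hκ c (by simp [consts, hc])) h.1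
    obtain ⟨a2, b2⟩ := i2 (fun c hc => hκ c (by simp [consts, hc])) h.2
    exact ⟨⟨a1, a2⟩, by simp [evK, b1, b2]⟩
  | inv e1 i1 =>
    obtain ⟨a1, b1⟩ := i1 hκ h.1
    obtain ⟨u, hu⟩ := h.2
    refine ⟨⟨a1, by rw [b1]; exact h.2.map f⟩, ?_⟩
    simp only [evK, b1, ← hu, Ring.inverse_unit]
    exact Ring.inverse_unit (Units.map (f : A →* B) u)

lemma reflect_K {A B F : Type} [Ring A] [Ring B] [FunLike F A B] [RingHomClass F A B] (f : F)
    (hf : ∀ a, IsUnit (f a) → IsUnit a)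
    {κ : ℝ → A} {X : Fin g → A} {κ' : ℝ → B} {X' : Fin g → B} (hX : ∀ i, X' i = f (X i))
    {e : RExpr g} (hκ : ∀ c ∈ consts e, κ' c = f (κ c)) (h : DomK κ' X' e) : DomK κ X e := by
  induction e with
  | const c => trivial
  | var i => trivial
  | add e1 e2 i1 i2 =>
    exact ⟨i1 (fun c hc => hκ c (by simp [consts, hc])) h.1,
      i2 (fun c hc => hκ c (by simp [consts, hc])) h.2⟩
  | mul e1 e2 i1 i2 =>
    exact ⟨i1 (fun c hc => hκ c (by simp [consts, hc])) h.1,
      i2 (fun c hc => hκ c (by simp [consts, hc])) h.2⟩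
  | inv e1 i1 =>
    have a1 := i1 hκ h.1
    refine ⟨a1, hf _ ?_⟩
    rw [← (map_K f hX (e := e1) hκ a1).2]
    exact h.2

lemma map_alg {A B F : Type} [Ring A] [Ring B] [Algebra ℝ A] [Algebra ℝ B] [FunLike F A B]
    [AlgHomClass F ℝ A B] (f : F) {X : Fin g → A} {e : RExpr g} (h : Dom X e) :
    Dom (fun i => f (X i)) e ∧ eval (fun i => f (X i)) e = f (eval X e) := by
  rw [dom_iff, eval_eq, eval_eq]
  exact map_K f (fun _ => rfl) (fun c _ => (AlgHomClass.commutes f c).symm) ((dom_iff _ _).1 h)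

lemma adj_eval {n : Type} [Fintype n] [DecidableEq n] {X : Fin g → Matrix n n ℝ}
    (hX : ∀ i, (X i)ᵀ = X i) {e : RExpr g} (h : Dom X e) :
    Dom X (adj e) ∧ eval X (adj e) = (eval X e)ᵀ := by
  induction e with
  | const c => exact ⟨trivial, by simp [adj, eval, Algebra.algebraMap_eq_smul_one]⟩
  | var i => exact ⟨trivial, (hX i).symm⟩
  | add e1 e2 i1 i2 =>
    exact ⟨⟨(i1 h.1).1, (i2 h.2).1⟩, by simp [adj, eval, (i1 h.1).2, (i2 h.2).2]⟩
  | mul e1 e2 i1 i2 =>
    exact ⟨⟨(i2 h.2).1, (i1 h.1).1⟩, by simp [adj, eval, (i1 h.1).2, (i2 h.2).2]⟩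
  | inv e1 i1 =>
    refine ⟨⟨(i1 h.1).1, by rw [(i1 h.1).2]; exact (isUnit_transpose _).2 h.2⟩, ?_⟩
    simp only [adj, eval, (i1 h.1).2, ← nonsing_inv_eq_ringInverse, transpose_nonsing_inv]

lemma line_aux {𝕜 n : Type} [Field 𝕜] [Fintype n] [DecidableEq n] (κ : ℝ → Matrix n n 𝕜)
    (X D : Fin g → Matrix n n 𝕜) {e : RExpr g} (h : DomK κ X e) :
    ∃ (Q : 𝕜[X]) (P : Matrix n n 𝕜[X]), Q.eval 0 ≠ 0 ∧ ∀ t : 𝕜, Q.eval t ≠ 0 →
      DomK κ (fun i => X i + t • D i) e ∧
        Q.eval t • evK κ (fun i => X i + t • D i) e = (evalRingHom t).mapMatrix P := by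
  induction e with
  | const c =>
    refine ⟨1, (κ c).map C, by simp, fun t _ => ⟨trivial, ?_⟩⟩
    ext i j; simp [evK]
  | var k =>
    refine ⟨1, (X k).map C + (Polynomial.X : 𝕜[X]) • (D k).map C, by simp,
      fun t _ => ⟨trivial, ?_⟩⟩
    ext i j; simp [evK]; ring
  | add e1 e2 i1 i2 =>
    obtain ⟨Q1, P1, a1, b1⟩ := i1 h.1
    obtain ⟨Q2, P2, a2, b2⟩ := i2 h.2
    refine ⟨Q1 * Q2, Q2 • P1 + Q1 • P2, by simp [a1, a2], fun t ht => ?_⟩
    rw [eval_mul, mul_ne_zero_iff] at ht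
    refine ⟨⟨(b1 t ht.1).1, (b2 t ht.2).1⟩, ?_⟩
    have s1 : ∀ (Q : 𝕜[X]) (P : Matrix n n 𝕜[X]), (evalRingHom t).mapMatrix (Q • P) =
        Q.eval t • (evalRingHom t).mapMatrix P := by
      intro Q P; ext i j; simp
    rw [map_add, s1, s1, ← (b1 t ht.1).2, ← (b2 t ht.2).2, eval_mul, evK, smul_add, smul_smul,
      smul_smul, mul_comm (Q2.eval t)]
  | mul e1 e2 i1 i2 =>
    obtain ⟨Q1, P1, a1, b1⟩ := i1 h.1
    obtain ⟨Q2, P2, a2, b2⟩ := i2 h.2
    refine ⟨Q1 * Q2, P1 * P2, by simp [a1, a2], fun t ht => ?_⟩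
    rw [eval_mul, mul_ne_zero_iff] at ht
    refine ⟨⟨(b1 t ht.1).1, (b2 t ht.2).1⟩, ?_⟩
    rw [map_mul, ← (b1 t ht.1).2, ← (b2 t ht.2).2, eval_mul, evK, smul_mul_smul_comm]
  | inv e1 i1 =>
    obtain ⟨Q, P, a, b⟩ := i1 h.1
    have hdet : ∀ t, Q.eval t ≠ 0 → P.det.eval t =
        Q.eval t ^ Fintype.card n * (evK κ (fun i => X i + t • D i) e1).det := by
      intro t ht
      rw [← det_smul, (b t ht).2]
      exact (evalRingHom t).map_det P
    refine ⟨Q * P.det, (Q * Q) • P.adjugate, ?_, fun t ht => ?_⟩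
    · rw [eval_mul, hdet 0 a]
      have := (isUnit_iff_isUnit_det _).1 h.2
      simp only [zero_smul, add_zero]
      exact mul_ne_zero a (mul_ne_zero (pow_ne_zero _ a) this.ne_zero)
    rw [eval_mul, mul_ne_zero_iff] at ht
    have hd : (evK κ (fun i => X i + t • D i) e1).det ≠ 0 := by
      have := ht.2
      rw [hdet t ht.1] at this
      exact (mul_ne_zero_iff.1 this).2
    have hu : IsUnit (evK κ (fun i => X i + t • D i) e1) :=
      (isUnit_iff_isUnit_det _).2 hd.isUnit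
    refine ⟨⟨(b t ht.1).1, hu⟩, ?_⟩
    have s1 : (evalRingHom t).mapMatrix ((Q * Q) • P.adjugate) =
        (Q.eval t * Q.eval t) • ((evalRingHom t).mapMatrix P).adjugate := by
      rw [← RingHom.map_adjugate]; ext i j; simp
    have s2 : P.det.eval t = ((evalRingHom t).mapMatrix P).det := (evalRingHom t).map_det P
    rw [s1, eval_mul, s2, ← (b t ht.1).2, evK]
    set M := evK κ (fun i => X i + t • D i) e1
    set q := Q.eval t
    apply hu.mul_left_cancel
    rw [Matrix.mul_smul, Ring.mul_inverse_cancel _ hu, Matrix.mul_smul, mul_smul q q,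
      ← Matrix.smul_mul q M, mul_adjugate, mul_smul]

lemma line {𝕜 n : Type} [Field 𝕜] [Fintype n] [DecidableEq n] (κ : ℝ → Matrix n n 𝕜)
    (X D : Fin g → Matrix n n 𝕜) {e : RExpr g} (h : DomK κ X e) :
    {t : 𝕜 | ¬ DomK κ (fun i => X i + t • D i) e}.Finite := by
  obtain ⟨Q, P, a, b⟩ := line_aux κ X D h
  have hQ : Q ≠ 0 := fun h0 => a (by simp [h0])
  refine (Q.finite_setOfPred_isRoot hQ).subset fun t ht => ?_
  by_contra hne
  exact ht (b t hne).1

/-- the domain contains a symmetric tuple of matrices indexed by `ι` -/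
def SymPt (e : RExpr g) (ι : Type) [Fintype ι] [DecidableEq ι] : Prop :=
  ∃ X : Fin g → Matrix ι ι ℝ, (∀ i, (X i)ᵀ = X i) ∧ Dom X e

/-- amplification -/
noncomputable def amp (μ ι : Type) [Fintype μ] [DecidableEq μ] [Fintype ι] [DecidableEq ι] :
    Matrix ι ι ℝ →ₐ[ℝ] Matrix (μ × ι) (μ × ι) ℝ :=
  (compAlgEquiv μ ι ℝ ℝ).toAlgHom.comp (scalarAlgHom μ ℝ)

lemma amp_apply {μ ι : Type} [Fintype μ] [DecidableEq μ] [Fintype ι] [DecidableEq ι]
    (M : Matrix ι ι ℝ) (a b : μ × ι) : amp μ ι M a b = if a.1 = b.1 then M a.2 b.2 else 0 := by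
  simp only [amp, AlgHom.comp_apply, AlgEquiv.coe_toAlgHom, compAlgEquiv_apply, comp_apply,
    scalarAlgHom_apply, scalar_apply, diagonal_apply]
  split_ifs <;> rfl

lemma amp_symm {μ ι : Type} [Fintype μ] [DecidableEq μ] [Fintype ι] [DecidableEq ι]
    {M : Matrix ι ι ℝ} (h : Mᵀ = M) : (amp μ ι M)ᵀ = amp μ ι M := by
  ext a b
  have := congrFun (congrFun h a.2) b.2
  simp only [transpose_apply] at this
  simp only [transpose_apply, amp_apply, this, eq_comm]

lemma amp_trace {μ ι : Type} [Fintype μ] [DecidableEq μ] [Fintype ι] [DecidableEq ι]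
    (M : Matrix ι ι ℝ) : (amp μ ι M).trace = Fintype.card μ * M.trace := by
  simp [trace, amp_apply, Fintype.sum_prod_type]

lemma SymPt.amp {e : RExpr g} {ι : Type} [Fintype ι] [DecidableEq ι] (h : SymPt e ι)
    (μ : Type) [Fintype μ] [DecidableEq μ] : SymPt e (μ × ι) := by
  obtain ⟨X, h1, h2⟩ := h
  exact ⟨_, fun i => amp_symm (h1 i), (map_alg (RExpr.amp μ ι) h2).1⟩

lemma SymPt.equiv {e : RExpr g} {ι μ : Type} [Fintype ι] [DecidableEq ι] [Fintype μ]
    [DecidableEq μ] (h : SymPt e ι) (σ : ι ≃ μ) : SymPt e μ := by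
  obtain ⟨X, h1, h2⟩ := h
  refine ⟨_, fun i => ?_, (map_alg (reindexAlgEquiv ℝ ℝ σ) h2).1⟩
  simp [h1 i]

lemma SymPt.add {e f : RExpr g} {ι : Type} [Fintype ι] [DecidableEq ι] (he : SymPt e ι)
    (hf : SymPt f ι) : SymPt (add e f) ι := by
  obtain ⟨X, h1, h2⟩ := he
  obtain ⟨Y, h3, h4⟩ := hf
  have f1 := line _ X (fun i => Y i - X i) ((dom_iff _ _).1 h2)
  have f2 := line _ Y (fun i => Y i - X i) ((dom_iff _ _).1 h4)
  obtain ⟨t, ht⟩ := (f1.union (f2.image fun t => t + 1)).exists_notMem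
  simp only [Set.mem_union, not_or, Set.mem_ofPred_eq, not_not] at ht
  refine ⟨fun i => X i + t • (Y i - X i), fun i => by simp [h1, h3], (dom_iff _ _).2 ht.1, ?_⟩
  by_contra hne
  refine ht.2 ⟨t - 1, ?_, by ring⟩
  rw [dom_iff] at hne
  convert hne using 3 with i
  simp only [sub_smul, one_smul]
  abel

lemma Nondegenerate.symPt {e : RExpr g} (h : e.Nondegenerate) :
    ∃ N : ℕ, SymPt e (Fin (N + 1)) := by
  obtain ⟨n, hn, X, hX⟩ := h
  let c : Matrix (Fin n) (Fin n) ℝ →ₐ[ℝ] Matrix (Fin n) (Fin n) ℂ := Complex.ofRealAm.mapMatrix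
  have h1 := (map_alg c hX).1
  let D : Fin g → Matrix (Fin n) (Fin n) ℂ := fun i => c (X i - (X i)ᵀ)
  have f1 := line _ _ D ((dom_iff _ _).1 h1)
  have inj : Function.Injective fun r : ℝ => (-1 / 2 + r * Complex.I : ℂ) := by
    intro r s hrs
    simpa using hrs
  obtain ⟨r, hr⟩ := (f1.preimage inj.injOn).exists_notMem
  simp only [Set.mem_preimage, Set.mem_ofPred_eq, not_not] at hr
  let ρ : Matrix (Fin n) (Fin n) ℂ →ₐ[ℝ] Matrix (Fin n × Fin 2) (Fin n × Fin 2) ℝ :=
    (compAlgEquiv (Fin n) (Fin 2) ℝ ℝ).toAlgHom.comp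
      (Algebra.leftMulMatrix Complex.basisOneI).mapMatrix
  have h2 := (map_alg ρ ((dom_iff _ _).2 hr)).1
  have h3 : SymPt e (Fin n × Fin 2) := by
    refine ⟨_, fun i => ?_, h2⟩
    ext ⟨a, p⟩ ⟨b, q⟩
    fin_cases p <;> fin_cases q <;>
      simp [ρ, c, D, Algebra.leftMulMatrix_complex] <;> ring
  refine ⟨n * 2 - 1, h3.equiv (finProdFinEquiv.trans (finCongr (by omega)))⟩

/-- an expression whose domain is the common domain of a list of expressions -/
def sumL (L : List (RExpr g)) : RExpr g := L.foldr add (const 0)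

lemma dom_sumL {A : Type} [Ring A] {κ : ℝ → A} {X : Fin g → A} {L : List (RExpr g)}
    (h : DomK κ X (sumL L)) : ∀ e ∈ L, DomK κ X e := by
  induction L with
  | nil => simp
  | cons a L ih =>
    intro e he
    rcases List.mem_cons.1 he with rfl | he
    · exact h.1
    · exact ih h.2 e he

lemma consts_sumL {L : List (RExpr g)} : ∀ e ∈ L, consts e ⊆ consts (sumL L) := by
  induction L with
  | nil => simp
  | cons a L ih =>
    intro e he
    rcases List.mem_cons.1 he with rfl | he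
    · exact Finset.subset_union_left
    · exact (ih e he).trans Finset.subset_union_right

lemma symPt_sumL {L : List (RExpr g)} (h : ∀ e ∈ L, e.Nondegenerate) :
    ∃ N : ℕ, SymPt (sumL L) (Fin (N + 1)) := by
  induction L with
  | nil => exact ⟨0, fun _ => 0, fun _ => rfl, trivial⟩
  | cons a L ih =>
    obtain ⟨N, hN⟩ := ih fun e he => h e (List.mem_cons_of_mem _ he)
    obtain ⟨M, hM⟩ := (h a List.mem_cons_self).symPt
    have := ((hM.amp (Fin (N + 1))).equiv (Equiv.prodComm _ _)).add (hN.amp (Fin (M + 1)))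
    exact ⟨(M + 1) * (N + 1) - 1, this.equiv (finProdFinEquiv.trans (finCongr (by
      have : 0 < (M + 1) * (N + 1) := by positivity
      omega)))⟩

end RExpr

end Pool.Agent.H552Z.TP
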