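import Mathlib

/-! The lacunary series `H x = Σ x^(3·2^k)` and the sub-action `u`. -/

namespace Pool.Agent.H552Z.TP

open Finset

/-- the lacunary series -/
noncomputable def H (x : ℝ) : ℝ := ∑' k : ℕ, x ^ (3 * 2 ^ k)

lemma le_exp (k : ℕ) : k + 3 ≤ 3 * 2 ^ k := by
  have := Nat.lt_two_pow_self (n := k)
  omega

lemma summable_H {x : ℝ} (h0 : 0 ≤ x) (h1 : x < 1) : Summable fun k : ℕ => x ^ (3 * 2 ^ k) := by
  refine Summable.of_nonneg_of_le (fun k => by positivity) (fun k => ?_)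
    (summable_geometric_of_lt_one h0 h1)
  exact pow_le_pow_of_le_one h0 h1.le (by have := le_exp k; omega)

lemma H_nonneg {x : ℝ} (h0 : 0 ≤ x) : 0 ≤ H x := tsum_nonneg fun k => by positivity

lemma H_zero : H 0 = 0 := by simp [H]

lemma H_eq {x : ℝ} (h0 : 0 ≤ x) (h1 : x < 1) : H x = x ^ 3 + H (x ^ 2) := by
  unfold H
  rw [(summable_H h0 h1).tsum_eq_zero_add]
  congr 1
  refine tsum_congr fun k => ?_
  rw [← pow_mul]; congr 1; ring

lemma H_mono {x y : ℝ} (h0 : 0 ≤ x) (hxy : x ≤ y) (h1 : y < 1) : H x ≤ H y :=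
  (summable_H h0 (hxy.trans_lt h1)).tsum_le_tsum (fun k => pow_le_pow_left₀ h0 hxy _)
    (summable_H (h0.trans hxy) h1)

lemma pow_sub_le {x y : ℝ} (h0 : 0 ≤ x) (hxy : x ≤ y) (m : ℕ) :
    y ^ (m + 1) - x ^ (m + 1) ≤ (m + 1) * y ^ m * (y - x) := by
  induction m with
  | zero => simp
  | succ m ih =>
    have hy : 0 ≤ y := h0.trans hxy
    have h2 : x ^ (m + 1) ≤ y ^ (m + 1) := pow_le_pow_left₀ h0 hxy _
    have h3 : y * (y ^ (m + 1) - x ^ (m + 1)) ≤ y * ((m + 1) * y ^ m * (y - x)) :=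
      mul_le_mul_of_nonneg_left ih hy
    have h4 : x ^ (m + 1) * (y - x) ≤ y ^ (m + 1) * (y - x) :=
      mul_le_mul_of_nonneg_right h2 (sub_nonneg.2 hxy)
    push_cast
    calc y ^ (m + 1 + 1) - x ^ (m + 1 + 1)
        = y * (y ^ (m + 1) - x ^ (m + 1)) + x ^ (m + 1) * (y - x) := by ring
      _ ≤ y * ((m + 1) * y ^ m * (y - x)) + y ^ (m + 1) * (y - x) := add_le_add h3 h4
      _ = _ := by ring

lemma H_lip {x y ρ : ℝ} (h0 : 0 ≤ x) (hxy : x ≤ y) (hy : y ≤ ρ) (hρ : ρ ≤ 1 / 4) :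
    H y - H x ≤ 6 * ρ ^ 2 * (y - x) := by
  have hy0 : 0 ≤ y := h0.trans hxy
  have hρ0 : 0 ≤ ρ := hy0.trans hy
  have sy := summable_H hy0 (by linarith)
  have sx := summable_H h0 (by linarith)
  unfold H
  rw [← sy.tsum_sub sx]
  have hg : HasSum (fun k : ℕ => 3 * ρ ^ 2 * (y - x) * (1 / 2 : ℝ) ^ k)
      (3 * ρ ^ 2 * (y - x) * 2) := hasSum_geometric_two.mul_left _
  have : 6 * ρ ^ 2 * (y - x) = 3 * ρ ^ 2 * (y - x) * 2 := by ring
  rw [this, ← hg.tsum_eq]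
  refine (sy.sub sx).tsum_le_tsum (fun k => ?_) hg.summable
  obtain ⟨m, hm⟩ : ∃ m, 3 * 2 ^ k = (k + 2 + m) + 1 := ⟨3 * 2 ^ k - (k + 3), by
    have := le_exp k; omega⟩
  have h1 := pow_sub_le h0 hxy (k + 2 + m)
  have h2 : ((k + 2 + m : ℕ) : ℝ) + 1 = 3 * 2 ^ k := by exact_mod_cast hm.symm
  rw [hm]
  refine h1.trans ?_
  rw [h2]
  have h3 : y ^ (k + 2 + m) ≤ (1 / 4) ^ k * ρ ^ 2 := by
    rw [pow_add, pow_add]
    have a1 : y ^ k ≤ (1 / 4) ^ k := pow_le_pow_left₀ hy0 (hy.trans hρ) _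
    have a2 : y ^ 2 ≤ ρ ^ 2 := pow_le_pow_left₀ hy0 hy _
    have a3 : y ^ m ≤ 1 := pow_le_one₀ hy0 (by linarith)
    calc y ^ k * y ^ 2 * y ^ m ≤ y ^ k * y ^ 2 * 1 := by gcongr
      _ ≤ (1 / 4) ^ k * ρ ^ 2 := by rw [mul_one]; gcongr
  have h4 : (2 : ℝ) ^ k * (1 / 4) ^ k = (1 / 2) ^ k := by rw [← mul_pow]; norm_num
  have h5 : 0 ≤ y - x := sub_nonneg.2 hxy
  calc 3 * 2 ^ k * y ^ (k + 2 + m) * (y - x) ≤ 3 * 2 ^ k * ((1 / 4) ^ k * ρ ^ 2) * (y - x) := by
        gcongr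
    _ = 3 * ρ ^ 2 * (y - x) * (2 ^ k * (1 / 4) ^ k) := by ring
    _ = _ := by rw [h4]

/-- the critical constant -/
noncomputable def Kc (s : ℝ) : ℝ := (s ^ 3 - H (s ^ 2)) / s

/-- the sub-action -/
noncomputable def u (s x : ℝ) : ℝ := Kc s * max (-x) 0 - H (min (max x 0) (s ^ 2))

section
variable {s : ℝ} (h0 : 0 < s) (h1 : s ≤ 1 / 4)
include h0 h1

lemma lipL {x y : ℝ} (hx : 0 ≤ x) (hxy : x ≤ y) (hy : y ≤ s ^ 2) :
    H y - H x ≤ 6 * s ^ 4 * (y - x) := by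
  have := H_lip hx hxy hy (by nlinarith)
  calc _ ≤ _ := this
    _ = _ := by ring

lemma Kc_ge : 6 * s ^ 4 ≤ Kc s := by
  have := lipL h0 h1 le_rfl (sq_nonneg s) le_rfl
  rw [H_zero] at this
  rw [Kc, le_div_iff₀ h0]
  have h3 : 0 < s ^ 3 := by positivity
  have h4 : 6 * s ^ 2 + 6 * s ^ 3 ≤ 1 := by nlinarith
  nlinarith

lemma Kc_pos : 0 < Kc s := lt_of_lt_of_le (by positivity) (Kc_ge h0 h1)

lemma u_anti : Monotone fun x => -u s x := by
  intro x y hxy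
  have a1 : max (-y) 0 ≤ max (-x) 0 := max_le_max (by linarith) le_rfl
  have a2 : H (min (max x 0) (s ^ 2)) ≤ H (min (max y 0) (s ^ 2)) :=
    H_mono (le_min (le_max_right _ _) (sq_nonneg _)) (min_le_min (max_le_max hxy le_rfl) le_rfl)
      ((min_le_right _ _).trans_lt (by nlinarith))
  have := mul_le_mul_of_nonneg_left a1 (Kc_pos h0 h1).le
  simp only [u]
  linarith

lemma v_mono : Monotone fun x => u s x + Kc s * x := by
  intro x y hxy
  have e : ∀ z : ℝ, max (-z) 0 = max z 0 - z := by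
    intro z
    rcases le_total z 0 with h | h
    · rw [max_eq_left (by linarith), max_eq_right h]; ring
    · rw [max_eq_right (by linarith), max_eq_left h]; ring
  have m1 : max x 0 ≤ max y 0 := max_le_max hxy le_rfl
  have m2 : min (max x 0) (s ^ 2) ≤ min (max y 0) (s ^ 2) := min_le_min m1 le_rfl
  have a2 := lipL h0 h1 (le_min (le_max_right x 0) (sq_nonneg s)) m2 (min_le_right _ _)
  have m3 : min (max y 0) (s ^ 2) - min (max x 0) (s ^ 2) ≤ max y 0 - max x 0 := by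
    rcases le_total (max x 0) (s ^ 2) with h | h
    · rw [min_eq_left h]; linarith [min_le_left (max y 0) (s ^ 2)]
    · rw [min_eq_right h, min_eq_right (h.trans m1)]; linarith
  have a3 : 6 * s ^ 4 * (min (max y 0) (s ^ 2) - min (max x 0) (s ^ 2)) ≤
      Kc s * (max y 0 - max x 0) :=
    mul_le_mul (Kc_ge h0 h1) m3 (sub_nonneg.2 m2) (Kc_pos h0 h1).le
  simp only [u, e]
  linarith

lemma u_sub {x : ℝ} (hx : -s ≤ x) : u s (x ^ 2) ≤ u s x + x ^ 3 := by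
  have e1 : u s (x ^ 2) = -H (min (x ^ 2) (s ^ 2)) := by
    rw [u, max_eq_right (by linarith [sq_nonneg x]), max_eq_left (sq_nonneg x)]; ring
  rw [e1]
  have hs2 : s ^ 2 ≤ s := by nlinarith
  rcases le_total x 0 with h | h
  · have hx2 : x ^ 2 ≤ s ^ 2 := by nlinarith
    rw [u, max_eq_left (by linarith), max_eq_right h, min_eq_left (sq_nonneg s), H_zero,
      min_eq_left hx2]
    have a1 := lipL h0 h1 (sq_nonneg x) hx2 le_rfl
    have a2 := H_nonneg (sq_nonneg x)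
    have a3 : Kc s * s = s ^ 3 - H (s ^ 2) := by rw [Kc]; field_simp
    have a4 : 6 * s ^ 4 * (s ^ 2 - x ^ 2) ≤ s * (s ^ 2 - x ^ 2) := by
      apply mul_le_mul_of_nonneg_right _ (by linarith)
      have : s ^ 3 ≤ 1 / 64 := by
        have := pow_le_pow_left₀ h0.le h1 3
        linarith [show ((1 : ℝ) / 4) ^ 3 = 1 / 64 by norm_num]
      nlinarith
    have a5 : H (s ^ 2) - H (x ^ 2) ≤ s * (s ^ 2 - x ^ 2) := a1.trans a4
    have a6 : (-x) * (H (s ^ 2) - H (x ^ 2)) ≤ (-x) * (s * (s ^ 2 - x ^ 2)) :=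
      mul_le_mul_of_nonneg_left a5 (by linarith)
    have a7 : (-x) * H (x ^ 2) ≤ s * H (x ^ 2) := mul_le_mul_of_nonneg_right (by linarith) a2
    have a8 : s * (-H (x ^ 2)) ≤ s * (Kc s * -x - 0 + x ^ 3) := by
      have : s * (Kc s * -x - 0 + x ^ 3) = (Kc s * s) * (-x) + s * x ^ 3 := by ring
      rw [this, a3]
      nlinarith
    exact le_of_mul_le_mul_left a8 h0
  · rw [u, max_eq_right (by linarith), max_eq_left h, mul_zero, zero_sub]
    rcases le_total x (s ^ 2) with h2 | h2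
    · have hx2 : x ^ 2 ≤ s ^ 2 := by nlinarith
      rw [min_eq_left h2, min_eq_left hx2, H_eq h (by linarith)]
      linarith
    · rw [min_eq_right h2]
      rcases le_total (x ^ 2) (s ^ 2) with h3 | h3
      · rw [min_eq_left h3]
        have hxs : x ≤ s := by nlinarith
        have := H_mono (sq_nonneg s) h2 (by linarith)
        rw [H_eq h (by linarith)] at this
        linarith
      · rw [min_eq_right h3]
        have : 0 ≤ x ^ 3 := by positivity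
        linarith

end

end Pool.Agent.H552Z.TP
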