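import Pool.Agent.H552Z.TP.Fn

/-! There is `s` such that `H s` is transcendental over the field generated by `s`. -/

namespace Pool.Agent.H552Z.TP

open Polynomial Filter Topology Metric IntermediateField

/-- the complex lacunary series -/
noncomputable def Hc (z : ℂ) : ℂ := ∑' k : ℕ, z ^ (3 * 2 ^ k)

lemma norm_term_le {z : ℂ} (hz : z ∈ ball (0 : ℂ) (1 / 2)) (k : ℕ) :
    ‖z ^ (3 * 2 ^ k)‖ ≤ (1 / 2 : ℝ) ^ k := by
  rw [mem_ball_zero_iff] at hz
  rw [norm_pow]
  calc ‖z‖ ^ (3 * 2 ^ k) ≤ (1 / 2) ^ (3 * 2 ^ k) := pow_le_pow_left₀ (norm_nonneg _) hz.le _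
    _ ≤ (1 / 2) ^ k := pow_le_pow_of_le_one (by norm_num) (by norm_num) (by
      have := le_exp k; omega)

lemma Hc_eq {z : ℂ} (hz : z ∈ ball (0 : ℂ) (1 / 2)) : Hc (z ^ 2) = Hc z - z ^ 3 := by
  have hs : Summable fun k : ℕ => z ^ (3 * 2 ^ k) :=
    Summable.of_norm_bounded summable_geometric_two (norm_term_le hz)
  unfold Hc
  rw [hs.tsum_eq_zero_add]
  simp only [pow_zero, mul_one, add_sub_cancel_left]
  refine tsum_congr fun k => ?_
  rw [← pow_mul]; congr 1; ring

lemma Hc_analytic : AnalyticOnNhd ℂ Hc (ball 0 (1 / 2)) :=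
  (Complex.differentiableOn_tsum_of_summable_norm summable_geometric_two
    (fun _ => (differentiable_id.pow _).differentiableOn) isOpen_ball
    (fun k _ hw => norm_term_le hw k)).analyticOnNhd isOpen_ball

lemma Hc_ofReal (x : ℝ) : Hc x = H x := by
  simp [Hc, H, Complex.ofReal_tsum]

/-- evaluation of a polynomial in two variables on the graph of `Hc` -/
noncomputable def ev (P : ℂ[X][X]) (z : ℂ) : ℂ := P.eval₂ (evalRingHom z) (Hc z)

lemma sq_mem {z : ℂ} (hz : z ∈ ball (0 : ℂ) (1 / 2)) : z ^ 2 ∈ ball (0 : ℂ) (1 / 2) := by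
  rw [mem_ball_zero_iff] at hz ⊢
  rw [norm_pow]
  nlinarith [norm_nonneg z]

lemma deg_contra {a b : ℂ[X]} (ha : a ≠ 0) {d : ℂ} (hd : d ≠ 0)
    (h : expand ℂ 2 a * b + C d * X ^ 3 * a * expand ℂ 2 a = a * expand ℂ 2 b) : False := by
  have ha2 : expand ℂ 2 a ≠ 0 := by rwa [Ne, expand_eq_zero (by norm_num)]
  have hm : C d * X ^ 3 * a * expand ℂ 2 a ≠ 0 := by
    simp [hd, ha, ha2]
  have d2 : (C d * X ^ 3 * a * expand ℂ 2 a).natDegree = 3 + a.natDegree + a.natDegree * 2 := by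
    rw [natDegree_mul (by simp [hd, ha]) ha2, natDegree_mul (by simp [hd]) ha,
      natDegree_C_mul_X_pow _ _ hd, natDegree_expand]
  by_cases hb : b = 0
  · subst hb
    simp only [mul_zero, zero_add, map_zero] at h
    exact hm h
  have hb2 : expand ℂ 2 b ≠ 0 := by rwa [Ne, expand_eq_zero (by norm_num)]
  have d1 : (expand ℂ 2 a * b).natDegree = a.natDegree * 2 + b.natDegree := by
    rw [natDegree_mul ha2 hb, natDegree_expand]
  have d3 : (a * expand ℂ 2 b).natDegree = a.natDegree + b.natDegree * 2 := by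
    rw [natDegree_mul ha hb2, natDegree_expand]
  rcases lt_trichotomy (expand ℂ 2 a * b).natDegree (C d * X ^ 3 * a * expand ℂ 2 a).natDegree
    with h1 | h1 | h1
  · have := natDegree_add_eq_right_of_natDegree_lt h1
    rw [h] at this
    omega
  · have := natDegree_add_le (expand ℂ 2 a * b) (C d * X ^ 3 * a * expand ℂ 2 a)
    rw [h, ← h1, max_self] at this
    omega
  · have := natDegree_add_eq_left_of_natDegree_lt h1
    rw [h] at this
    omega

lemma ev_ne (P : ℂ[X][X]) (hP : P ≠ 0) : ¬ ∀ z ∈ ball (0 : ℂ) (1 / 2), ev P z = 0 := by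
  induction hd : P.natDegree using Nat.strong_induction_on generalizing P with
  | _ d ih =>
  intro hz
  rcases Nat.eq_zero_or_pos d with rfl | hpos
  · obtain ⟨a, rfl⟩ := natDegree_eq_zero.1 hd
    have ha : a = 0 := by
      apply Polynomial.eq_zero_of_infinite_isRoot
      refine Set.Infinite.mono (fun z hzz => ?_)
        (infinite_of_mem_nhds (0 : ℂ) (ball_mem_nhds 0 (by norm_num : (0 : ℝ) < 1 / 2)))
      simpa [ev] using hz z hzz
    exact hP (by rw [ha, map_zero])
  obtain ⟨e, rfl⟩ : ∃ e, d = e + 1 := ⟨d - 1, by omega⟩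
  let φ : ℂ[X] →+* ℂ[X] := (expand ℂ 2).toRingHom
  have φinj : Function.Injective φ := expand_injective (by norm_num)
  set P2 := P.map φ with hP2
  have d2 : P2.natDegree = e + 1 := by rw [hP2, natDegree_map_eq_of_injective φinj, hd]
  set Q := taylor (-X ^ 3 : ℂ[X]) P2 with hQ
  have dQ : Q.natDegree = e + 1 := by rw [hQ, natDegree_taylor, d2]
  have evQ : ∀ z ∈ ball (0 : ℂ) (1 / 2), ev Q z = 0 := by
    intro z hzz
    have := hz _ (sq_mem hzz)
    rw [ev, Hc_eq hzz] at this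
    rw [ev, hQ, taylor_apply, eval₂_comp, hP2, eval₂_map]
    have e1 : (evalRingHom z).comp φ = evalRingHom (z ^ 2) := by
      ext <;> simp [φ]
    rw [e1]
    rw [eval₂_add, eval₂_X, eval₂_C]
    simpa [sub_eq_add_neg] using this
  set a := P.coeff (e + 1) with ha
  set b := P.coeff e with hb
  have a0 : a ≠ 0 := by rw [ha, ← hd]; exact leadingCoeff_ne_zero.2 hP
  have qa : Q.coeff (e + 1) = φ a := by
    have := coeff_taylor_natDegree (-X ^ 3 : ℂ[X]) P2
    rw [leadingCoeff, d2] at this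
    rw [hQ, this, hP2, coeff_map]
  have qb : Q.coeff e = φ b - C ((e + 1 : ℕ) : ℂ) * X ^ 3 * φ a := by
    rw [hQ, taylor_coeff, eval_eq_sum_range' (n := 2) (by
      have := natDegree_hasseDeriv_le P2 e
      omega)]
    simp only [Finset.sum_range_succ, Finset.sum_range_zero, hasseDeriv_coeff, zero_add,
      Nat.choose_self, hP2, coeff_map, add_comm 1 e, Nat.choose_succ_self_right, map_natCast]
    rw [← ha, ← hb]
    push_cast
    ring
  set D := C (φ a) * P - C a * Q with hD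
  have D0 : D = 0 := by
    by_contra hne
    refine ih D.natDegree ?_ D hne rfl ?_
    · have h1 : D.natDegree ≤ e + 1 := by
        refine (natDegree_sub_le _ _).trans (max_le ?_ ?_)
        · exact (natDegree_C_mul_le _ _).trans hd.le
        · exact (natDegree_C_mul_le _ _).trans dQ.le
      have h2 : D.coeff (e + 1) = 0 := by
        rw [hD, coeff_sub, coeff_C_mul, coeff_C_mul, qa, ← ha]; ring
      rcases h1.lt_or_eq with h | h
      · exact h
      · exact absurd (by rw [leadingCoeff, h, h2]) (leadingCoeff_ne_zero.2 hne)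
    · intro z hzz
      have h1 := hz z hzz
      have h2 := evQ z hzz
      simp only [ev] at h1 h2 ⊢
      rw [hD, eval₂_sub, eval₂_mul, eval₂_mul, h1, h2]
      simp
  have := congrArg (fun p => p.coeff e) D0
  simp only [hD, coeff_sub, coeff_C_mul, qb, coeff_zero, ← hb] at this
  refine deg_contra a0 (d := ((e + 1 : ℕ) : ℂ)) (b := b) (by exact_mod_cast Nat.succ_ne_zero e) ?_
  have e2 : ∀ p, φ p = expand ℂ 2 p := fun p => rfl
  simp only [e2] at this
  linear_combination this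

lemma ev_analytic (P : ℂ[X][X]) : AnalyticOnNhd ℂ (ev P) (ball 0 (1 / 2)) := by
  have : ev P = fun z => ∑ i ∈ Finset.range (P.natDegree + 1), (P.coeff i).eval z * Hc z ^ i := by
    funext z; simp [ev, eval₂_eq_sum_range]
  rw [this]
  refine Finset.analyticOnNhd_fun_sum _ fun i _ => AnalyticOnNhd.mul ?_ (Hc_analytic.pow i)
  exact ((P.coeff i).differentiable.differentiableOn).analyticOnNhd isOpen_ball

lemma zeros_finite (P : ℚ[X][X]) (hP : P ≠ 0) :
    {s : ℝ | s ∈ Set.Icc (0 : ℝ) (1 / 4) ∧ P.eval₂ (aeval s).toRingHom (H s) = 0}.Finite := by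
  by_contra hinf
  let Pc : ℂ[X][X] := P.map (mapRingHom (algebraMap ℚ ℂ))
  have hPc : Pc ≠ 0 := (Polynomial.map_ne_zero_iff
    (Polynomial.map_injective _ (algebraMap ℚ ℂ).injective)).2 hP
  have hev : ∀ s : ℝ, ev Pc s = ((P.eval₂ (aeval s).toRingHom (H s) : ℝ) : ℂ) := by
    intro s
    have := Polynomial.hom_eval₂ P (aeval s).toRingHom Complex.ofRealHom (H s)
    simp only [Complex.ofRealHom_eq_coe] at this
    rw [this, ev, eval₂_map, Hc_ofReal]
    congr 1
    ext <;> simp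
  have hinf' := (Set.not_finite.1 hinf).image (Complex.ofReal_injective.injOn)
  obtain ⟨z, hz, hacc⟩ := hinf'.exists_accPt_of_subset_isCompact
    (isCompact_closedBall (0 : ℂ) (1 / 4)) (by
      rintro _ ⟨s, ⟨⟨h0, h1⟩, -⟩, rfl⟩
      simpa [abs_of_nonneg h0] using h1)
  refine ev_ne Pc hPc fun w hw => ?_
  refine (ev_analytic Pc).eqOn_zero_of_preconnected_of_frequently_eq_zero
    (convex_ball _ _).isPreconnected (closedBall_subset_ball (by norm_num) hz) ?_ hw
  refine (accPt_iff_frequently_nhdsNE.1 hacc).mono ?_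
  rintro _ ⟨s, ⟨-, hs⟩, rfl⟩
  rw [hev, hs, Complex.ofReal_zero]

theorem exists_transc : ∃ s : ℝ, 0 < s ∧ s ≤ 1 / 4 ∧ Transcendental ℚ⟮s⟯ (H s) := by
  have hc : (⋃ P : {P : ℚ[X][X] // P ≠ 0}, {s : ℝ | s ∈ Set.Icc (0 : ℝ) (1 / 4) ∧
      P.1.eval₂ (aeval s).toRingHom (H s) = 0}).Countable := by
    have cnt : ∀ (R : Type) [Semiring R] [Countable R], Countable R[X] := by
      intro R _ _
      rw [← Cardinal.mk_le_aleph0_iff]
      exact Polynomial.cardinalMk_le_max.trans (max_le Cardinal.mk_le_aleph0 le_rfl)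
    have := cnt ℚ
    have := cnt ℚ[X]
    exact Set.countable_iUnion fun P => (zeros_finite P.1 P.2).countable
  obtain ⟨s, hs, hs'⟩ : ∃ s ∈ Set.Ioo (0 : ℝ) (1 / 4), s ∉ (⋃ P : {P : ℚ[X][X] // P ≠ 0},
      {s : ℝ | s ∈ Set.Icc (0 : ℝ) (1 / 4) ∧ P.1.eval₂ (aeval s).toRingHom (H s) = 0}) := by
    by_contra hall
    push Not at hall
    have := (hc.mono hall).measure_zero MeasureTheory.volume
    simp at this
  refine ⟨s, hs.1, hs.2.le, ?_⟩
  rw [IntermediateField.transcendental_adjoin_iff]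
  rintro ⟨p, hp0, hp⟩
  let φ : ℚ[X] →+* Algebra.adjoin ℚ {s} :=
    (aeval (⟨s, Algebra.subset_adjoin rfl⟩ : Algebra.adjoin ℚ {s})).toRingHom
  have hφ : (algebraMap (Algebra.adjoin ℚ {s}) ℝ).comp φ = (aeval s).toRingHom := by
    ext <;> simp [φ]
  have hsurj : Function.Surjective φ := by
    rintro ⟨x, hx⟩
    rw [Algebra.adjoin_singleton_eq_range_aeval] at hx
    obtain ⟨f, rfl⟩ := hx
    exact ⟨f, Subtype.ext (RingHom.congr_fun hφ f)⟩
  obtain ⟨P, rfl⟩ := Polynomial.map_surjective φ hsurj p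
  refine hs' (Set.mem_iUnion.2 ⟨⟨P, fun h => hp0 (by rw [h, Polynomial.map_zero])⟩,
    ⟨hs.1.le, hs.2.le⟩, ?_⟩)
  rw [aeval_def, eval₂_map, hφ] at hp
  exact hp

end Pool.Agent.H552Z.TP
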