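import Pool.Agent.H552Z.TP.Two

/-! Below the critical constant the polynomial is not trace-positive. -/

namespace Pool.Agent.H552Z.TP

open Matrix Finset Filter Topology

section
variable {m : Type} [Fintype m] [DecidableEq m]

lemma scalar_diag (r : ℝ) : algebraMap ℝ (Matrix m m ℝ) r = diagonal fun _ => r := rfl

lemma core_diag (a c : ℝ) {T T' : Matrix m m ℝ} {d e : m → ℝ} (h1 : T' * T = diagonal d)
    (h2 : T * T' = diagonal e) (σ ρ : m → ℝ) :
    (core (algebraMap ℝ _ a) (algebraMap ℝ _ c) T T' (diagonal σ) (diagonal ρ)).trace =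
      ∑ j, (c * pen ((d j - a) * (d j - a) - (e j - a)) (σ j) (ρ j) + 4 * a * (d j - a) ^ 3) := by
  have one : (1 : Matrix m m ℝ) = diagonal fun _ => 1 := rfl
  simp only [core, pen, zed, h1, h2, scalar_diag, one, diagonal_sub, diagonal_add,
    diagonal_mul_diagonal, trace_diagonal]
  exact Finset.sum_congr rfl fun j _ => by ring

/-- permutation matrix -/
def pm (σ : m ≃ m) : Matrix m m ℝ := (1 : Matrix m m ℝ).submatrix σ id

lemma pm_mul (σ : m ≃ m) (M : Matrix m m ℝ) : pm σ * M = M.submatrix σ id := by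
  ext i j
  simp [pm, Matrix.mul_apply, one_apply]

lemma mul_pm (σ : m ≃ m) (hσ : ∀ i, σ (σ i) = i) (M : Matrix m m ℝ) :
    M * pm σ = M.submatrix id σ := by
  ext i j
  have : ∀ k, (σ k = j) = (k = σ j) := fun k => propext ⟨fun h => by rw [← h, hσ], fun h => by
    rw [h, hσ]⟩
  simp [pm, Matrix.mul_apply, one_apply, this]

lemma pm_symm (σ : m ≃ m) (hσ : ∀ i, σ (σ i) = i) : (pm σ)ᵀ = pm σ := by
  ext i j
  have : (σ j = i) = (σ i = j) := propext ⟨fun h => by rw [← h, hσ], fun h => by rw [← h, hσ]⟩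
  simp [pm, one_apply, this]

lemma pm_conj (σ : m ≃ m) (hσ : ∀ i, σ (σ i) = i) (d : m → ℝ) :
    pm σ * diagonal d * pm σ = diagonal (d ∘ σ) := by
  rw [mul_pm σ hσ, pm_mul, submatrix_submatrix]
  simpa using submatrix_diagonal_equiv d σ

lemma pm_sq (σ : m ≃ m) (hσ : ∀ i, σ (σ i) = i) : pm σ * pm σ = 1 := by
  have := pm_conj σ hσ fun _ => 1
  have one : (1 : Matrix m m ℝ) = diagonal fun _ => 1 := rfl
  rw [← one, Matrix.mul_one] at this
  exact this

end

/-- the orbit -/
noncomputable def orb (s : ℝ) : ℕ → ℝ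
  | 0 => -s
  | k + 1 => s ^ (2 ^ (k + 1))

lemma orb_sq (s : ℝ) (k : ℕ) : orb s k * orb s k = orb s (k + 1) := by
  cases k with
  | zero => simp [orb, sq]
  | succ k => simp only [orb]; rw [← pow_add]; congr 1; ring

lemma orb_sum {s : ℝ} (h0 : 0 < s) (h1 : s ≤ 1 / 4) (n : ℕ) :
    ∑ j ∈ range (n + 1), orb s j ^ 3 ≤ -(s * Kc s) := by
  have hK : s * Kc s = s ^ 3 - H (s ^ 2) := by rw [Kc]; field_simp
  rw [Finset.sum_range_succ', hK]
  have h2 : ∑ k ∈ range n, orb s (k + 1) ^ 3 ≤ H (s ^ 2) := by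
    have := (summable_H (sq_nonneg s) (by nlinarith)).sum_le_tsum (range n)
      (fun k _ => by positivity)
    refine le_trans (le_of_eq (Finset.sum_congr rfl fun k _ => ?_)) this
    simp only [orb, ← pow_mul]
    congr 1; ring
  simp only [orb] at h2 ⊢
  have : (-s) ^ 3 = -s ^ 3 := by ring
  linarith

theorem five_neg {s : ℝ} (h0 : 0 < s) (h1 : s ≤ 1 / 4) {c : ℝ} (hc : c < s * Kc s) :
    ∃ (n : ℕ) (Y : Fin 5 → Matrix (Fin (n + 1)) (Fin (n + 1)) ℝ), (∀ k, (Y k)ᵀ = Y k) ∧
      (core (algebraMap ℝ _ s) (algebraMap ℝ _ c) (Y 0 * Y 1 * Y 2) (Y 2 * Y 1 * Y 0)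
          (Y 3) (Y 4)).trace < 0 := by
  set c0 := s * Kc s with hc0
  have c0pos : 0 < c0 := mul_pos h0 (Kc_pos h0 h1)
  set δ := s * (c0 - c) with hδ
  have δpos : 0 < δ := mul_pos h0 (by linarith)
  obtain ⟨n, hn⟩ : ∃ n : ℕ, s ^ n < δ / (4 * c0) :=
    exists_pow_lt_of_lt_one (by positivity) (by linarith)
  have horb : orb s (n + 1) ≤ s ^ n := by
    simp only [orb]
    exact pow_le_pow_of_le_one h0.le (by linarith)
      (by have := Nat.lt_two_pow_self (n := n + 1); omega)
  have horb0 : 0 < orb s (n + 1) := by simp only [orb]; positivity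
  have horb1 : orb s (n + 1) ≤ 1 / 4 := by
    simp only [orb]
    refine le_trans (pow_le_of_le_one h0.le (by linarith) (by positivity)) h1
  set z := orb s (n + 1) + s with hz
  have z0 : 0 < z := by linarith
  have z1 : z < 1 := by linarith
  set ε := δ / (c0 * (n + 1)) with hε
  have ε0 : 0 < ε := by positivity
  let x : Fin (n + 1) → ℝ := fun j => orb s j
  have hx : ∀ j, 0 ≤ x j + s := by
    intro j
    simp only [x]
    rcases (j : ℕ) with _ | k
    · simp [orb]
    · simp only [orb]; positivity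
  let t : Fin (n + 1) → ℝ := fun j => √(x j + s)
  let σ1 : Fin (n + 1) ≃ Fin (n + 1) := Equiv.subLeft (-1)
  let σ2 : Fin (n + 1) ≃ Fin (n + 1) := Equiv.neg _
  have i1 : ∀ i, σ1 (σ1 i) = i := fun i => by simp [σ1]
  have i2 : ∀ i, σ2 (σ2 i) = i := fun i => by simp [σ2]
  have i3 : ∀ i, σ2 (σ1 i) = i + 1 := fun i => by simp [σ1, σ2]
  let σ : Fin (n + 1) → ℝ := Fin.lastCases (√((1 - z) / z)) fun _ => 1 / √ε
  let ρ : Fin (n + 1) → ℝ := Fin.lastCases (√((1 - z) / z) * z) fun _ => √ε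
  refine ⟨n, ![pm σ1, pm σ2, diagonal t, diagonal σ, diagonal ρ], ?_, ?_⟩
  · intro k
    fin_cases k
    · exact pm_symm _ i1
    · exact pm_symm _ i2
    all_goals simp
  have tt : (fun j => t j * t j) = fun j => x j + s := by
    funext j; exact Real.mul_self_sqrt (hx j)
  have e1 : diagonal t * pm σ2 * pm σ1 * (pm σ1 * pm σ2 * diagonal t) =
      diagonal fun j => x j + s := by
    calc _ = diagonal t * (pm σ2 * (pm σ1 * pm σ1) * pm σ2) * diagonal t := by
          simp only [Matrix.mul_assoc]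
      _ = _ := by rw [pm_sq _ i1, Matrix.mul_one, pm_sq _ i2, Matrix.mul_one,
          diagonal_mul_diagonal, tt]
  have e2 : pm σ1 * pm σ2 * diagonal t * (diagonal t * pm σ2 * pm σ1) =
      diagonal fun j => x (j + 1) + s := by
    calc _ = pm σ1 * (pm σ2 * (diagonal t * diagonal t) * pm σ2) * pm σ1 := by
          simp only [Matrix.mul_assoc]
      _ = _ := by
          rw [diagonal_mul_diagonal, tt, pm_conj _ i2, pm_conj _ i1]
          congr 1
          funext j
          simp [i3]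
  show (core (algebraMap ℝ _ s) (algebraMap ℝ _ c) (pm σ1 * pm σ2 * diagonal t)
    (diagonal t * pm σ2 * pm σ1) (diagonal σ) (diagonal ρ)).trace < 0
  rw [core_diag s c e1 e2]
  simp only [add_sub_cancel_right, Finset.sum_add_distrib, ← Finset.mul_sum]
  have s1 : ∑ j : Fin (n + 1), x j ^ 3 ≤ -c0 := by
    rw [Fin.sum_univ_eq_sum_range (fun j => orb s j ^ 3)]
    exact orb_sum h0 h1 n
  have s2 : ∑ j : Fin (n + 1), pen (x j * x j - x (j + 1)) (σ j) (ρ j) = n * ε + 4 * z := by
    rw [Fin.sum_univ_castSucc]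
    congr 1
    · have : ∀ i : Fin n, pen (x i.castSucc * x i.castSucc - x (i.castSucc + 1)) (σ i.castSucc)
          (ρ i.castSucc) = ε := by
        intro i
        have hs : √ε ≠ 0 := (Real.sqrt_pos.2 ε0).ne'
        simp only [x, σ, ρ, Fin.lastCases_castSucc, Fin.coeSucc_eq_succ, Fin.val_succ,
          Fin.val_castSucc, orb_sq, sub_self, pen]
        rw [mul_one_div_cancel hs, Real.mul_self_sqrt ε0.le]
        ring
      rw [Finset.sum_congr rfl fun i _ => this i]
      simp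
    · have hq : √((1 - z) / z) * √((1 - z) / z) = (1 - z) / z :=
        Real.mul_self_sqrt (div_nonneg (by linarith) z0.le)
      have hq' : √((1 - z) / z) * √((1 - z) / z) * z = 1 - z := by rw [hq]; field_simp
      have hl : x (Fin.last n) * x (Fin.last n) - x (Fin.last n + 1) = z := by
        simp only [x, Fin.last_add_one, Fin.val_last, orb_sq, Fin.val_zero, hz]
        simp [orb]
      rw [hl]
      simp only [σ, ρ, Fin.lastCases_last, pen]
      generalize √((1 - z) / z) = w at hq'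
      have : z * w * (w * z) + w * z * (w * z) + (1 - w * z * w) * (1 - w * (w * z)) + z * z +
          (z + z) = 2 * z * (w * w * z) + (1 - w * w * z) ^ 2 + z * z + 2 * z := by ring
      rw [this, hq']
      ring
  rw [s2]
  have b1 : c * (n * ε) ≤ c0 * (n * ε) := mul_le_mul_of_nonneg_right hc.le (by positivity)
  have b2 : c0 * (n * ε) ≤ δ := by
    have : c0 * ((n + 1) * ε) = δ := by rw [hε]; field_simp
    nlinarith
  have b3 : c * orb s (n + 1) ≤ c0 * orb s (n + 1) := mul_le_mul_of_nonneg_right hc.le horb0.le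
  have b4 : 4 * c0 * orb s (n + 1) < δ := by
    have := horb.trans_lt hn
    rw [lt_div_iff₀ (by positivity)] at this
    linarith
  have b5 : 4 * s * ∑ j : Fin (n + 1), x j ^ 3 ≤ 4 * s * -c0 :=
    mul_le_mul_of_nonneg_left s1 (by positivity)
  have : c * (n * ε + 4 * z) = c * (n * ε) + 4 * (c * orb s (n + 1)) + 4 * (s * c) := by
    rw [hz]; ring
  rw [this]
  nlinarith

theorem two_neg {s : ℝ} (h0 : 0 < s) (h1 : s ≤ 1 / 4) {c : ℝ} (hc : c < s * Kc s) :
    ∃ (n : ℕ) (x y : Matrix (Fin 5 × Fin (n + 1)) (Fin 5 × Fin (n + 1)) ℝ), xᵀ = x ∧ yᵀ = y ∧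
      (two (algebraMap ℝ _ s) (algebraMap ℝ _ c) x y).trace < 0 := by
  obtain ⟨n, Y, hY, hneg⟩ := five_neg h0 h1 hc
  obtain ⟨x, y, hx, hy, h⟩ := two_of_five s c Y hY
  exact ⟨n, x, y, hx, hy, by rw [h]; linarith⟩

end Pool.Agent.H552Z.TP
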