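import Pool.Agent.H552Z.TP.Expr
import Pool.Agent.H552Z.TP.Test
import Pool.Agent.H552Z.TP.Mahler
import Pool.Agent.H552Z.TP.Deform

/-! The main theorem. -/

namespace Pool.Agent.H552Z.TP

open Matrix RExpr

section
variable {T A : Type} [TopologicalSpace T] [Ring A] [TopologicalSpace A] [IsTopologicalRing A]

lemma cont_qv (k : Fin 5) {x y : T → A} (hx : Continuous x) (hy : Continuous y) :
    Continuous fun t => qv k (x t) (y t) := by
  have h : ∀ a, Continuous fun t => idem a (x t) := fun a => by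
    unfold idem
    refine continuous_finsetSum _ fun i _ => ?_
    simp only [zsmul_eq_mul]
    fun_prop
  unfold qv
  refine continuous_finsetSum _ fun a _ => ?_
  split_ifs
  · simp only [zsmul_eq_mul]
    exact continuous_const.mul (((h k).mul hy).mul (h k))
  · exact ((((h a).mul hy).mul (h k)).mul hy).mul (((h k).mul hy).mul (h a))

lemma cont_two (a c : A) {x y : T → A} (hx : Continuous x) (hy : Continuous y) :
    Continuous fun t => two a c (x t) (y t) := by
  have h := fun k => cont_qv k hx hy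
  have h0 := h 0
  have h1 := h 1
  have h2 := h 2
  have h3 := h 3
  have h4 := h 4
  unfold two core pen zed
  fun_prop

end

variable {g m k : ℕ}

/-- the identity holds at all tuples of the common domain, for index type `ι` -/
def Cert (ι : Type) [Fintype ι] [DecidableEq ι] (p : FreeAlgebra ℝ (Fin g)) (r : Fin m → RExpr g)
    (s t : Fin k → RExpr g) : Prop :=
  ∀ X : Fin g → Matrix ι ι ℝ, (∀ i, (r i).Dom X ∧ (r i).adj.Dom X) →
    (∀ j, (s j).Dom X ∧ (t j).Dom X) →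
    FreeAlgebra.lift ℝ X p = ∑ i, (r i).adj.eval X * (r i).eval X +
      ∑ j, ((s j).eval X * (t j).eval X - (t j).eval X * (s j).eval X)

lemma map_lift {A B : Type} [Ring A] [Ring B] [Algebra ℝ A] [Algebra ℝ B] (f : A →ₐ[ℝ] B)
    (X : Fin g → A) (p : FreeAlgebra ℝ (Fin g)) :
    f (FreeAlgebra.lift ℝ X p) = FreeAlgebra.lift ℝ (fun i => f (X i)) p := by
  have : f.comp (FreeAlgebra.lift ℝ X) = FreeAlgebra.lift ℝ (fun i => f (X i)) := by
    ext i; simp
  exact AlgHom.congr_fun this p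

lemma cert_any {p : FreeAlgebra ℝ (Fin g)} {r : Fin m → RExpr g} {s t : Fin k → RExpr g}
    (h : ∀ n, Cert (Fin n) p r s t) (ι : Type) [Fintype ι] [DecidableEq ι] : Cert ι p r s t := by
  intro X h1 h2
  let f := (reindexAlgEquiv ℝ ℝ (Fintype.equivFin ι)).toAlgHom
  have hf : Function.Injective f := (reindexAlgEquiv ℝ ℝ (Fintype.equivFin ι)).injective
  have := h _ (fun i => f (X i)) (fun i => ⟨(map_alg f (h1 i).1).1, (map_alg f (h1 i).2).1⟩)
    (fun j => ⟨(map_alg f (h2 j).1).1, (map_alg f (h2 j).2).1⟩)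
  apply hf
  rw [map_lift, this]
  simp only [map_add, map_sum, map_mul, map_sub, fun i => (map_alg f (h1 i).1).2,
    fun i => (map_alg f (h1 i).2).2, fun j => (map_alg f (h2 j).1).2,
    fun j => (map_alg f (h2 j).2).2]

lemma trace_tr_mul {τ : Type} [Fintype τ] (B : Matrix τ τ ℝ) : 0 ≤ (Bᵀ * B).trace := by
  simp only [trace, Matrix.diag_apply, Matrix.mul_apply, transpose_apply]
  exact Finset.sum_nonneg fun i _ => Finset.sum_nonneg fun j _ => mul_self_nonneg _

/-- the polynomial -/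
noncomputable def poly (i0 i1 : Fin g) (a c : ℝ) : FreeAlgebra ℝ (Fin g) :=
  two (algebraMap ℝ _ a) (algebraMap ℝ _ c) (FreeAlgebra.ι ℝ i0) (FreeAlgebra.ι ℝ i1)

lemma lift_poly {A : Type} [Ring A] [Algebra ℝ A] (i0 i1 : Fin g) (a c : ℝ) (X : Fin g → A) :
    FreeAlgebra.lift ℝ X (poly i0 i1 a c) =
      two (algebraMap ℝ _ a) (algebraMap ℝ _ c) (X i0) (X i1) := by
  simp [poly, map_two]

lemma transfer {τ E : Type} [Fintype τ] [DecidableEq τ] [Field E] (ψ0 ψ1 : E →+* ℝ)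
    {i0 i1 : Fin g} {ea ec : E} {r : Fin m → RExpr g} {s t : Fin k → RExpr g}
    (hc : Cert τ (poly i0 i1 (ψ0 ea) (ψ0 ec)) r s t) {big : RExpr g}
    (hbig : ∀ e, (e ∈ Set.range r ∨ e ∈ Set.range s ∨ e ∈ Set.range t) → consts e ⊆ consts big ∧
      ∀ X : Fin g → Matrix τ τ ℝ, Dom X big → Dom X e)
    (hcon : ∀ c ∈ consts big, ∃ e, ψ0 e = c)
    (X : Fin g → Matrix τ τ E) (hX : ∀ i, (X i)ᵀ = X i)
    (hd : Dom (fun i => ψ0.mapMatrix (X i)) big) :
    0 ≤ (two (algebraMap ℝ _ (ψ1 ea)) (algebraMap ℝ _ (ψ1 ec)) (ψ1.mapMatrix (X i0))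
      (ψ1.mapMatrix (X i1))).trace := by
  let κ : ℝ → Matrix τ τ E := fun c => scalar τ (Function.invFun ψ0 c)
  have sc : ∀ (ψ : E →+* ℝ) (e : E), ψ.mapMatrix (scalar τ e) = algebraMap ℝ _ (ψ e) := by
    intro ψ e
    ext i j
    by_cases h : i = j <;> simp [h, algebraMap_matrix_apply]
  have inj : Function.Injective (ψ0.mapMatrix : Matrix τ τ E → Matrix τ τ ℝ) :=
    Matrix.map_injective ψ0.injective
  have refl : ∀ M : Matrix τ τ E, IsUnit (ψ0.mapMatrix M) → IsUnit M := by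
    intro M hM
    rw [isUnit_iff_isUnit_det, isUnit_iff_ne_zero] at hM ⊢
    rw [← RingHom.map_det] at hM
    exact fun h => hM (by rw [h, map_zero])
  set X0 : Fin g → Matrix τ τ ℝ := fun i => ψ0.mapMatrix (X i) with hX0
  have hX0s : ∀ i, (X0 i)ᵀ = X0 i := fun i => by
    simp only [hX0, RingHom.mapMatrix_apply, ← transpose_map, hX i]
  have key : ∀ e, (e ∈ Set.range r ∨ e ∈ Set.range s ∨ e ∈ Set.range t) →
      Dom X0 e ∧ eval X0 e = ψ0.mapMatrix (evK κ X e) := by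
    intro e he
    have d1 := (hbig e he).2 _ hd
    have hκ : ∀ c ∈ consts e, algebraMap ℝ (Matrix τ τ ℝ) c = ψ0.mapMatrix (κ c) := by
      intro c hc
      rw [sc, Function.invFun_eq (hcon c ((hbig e he).1 hc))]
    have d2 := reflect_K ψ0.mapMatrix refl (fun _ => rfl) hκ ((dom_iff _ _).1 d1)
    exact ⟨d1, by rw [eval_eq]; exact (map_K ψ0.mapMatrix (fun _ => rfl) hκ d2).2⟩
  have kr := fun i => key (r i) (Or.inl ⟨i, rfl⟩)
  have ks := fun i => key (s i) (Or.inr (Or.inl ⟨i, rfl⟩))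
  have kt := fun i => key (t i) (Or.inr (Or.inr ⟨i, rfl⟩))
  have h1 := hc X0 (fun i => ⟨(kr i).1, (adj_eval hX0s (kr i).1).1⟩) fun j => ⟨(ks j).1, (kt j).1⟩
  have tr : ∀ (ψ : E →+* ℝ) (M : Matrix τ τ E), ψ.mapMatrix Mᵀ = (ψ.mapMatrix M)ᵀ :=
    fun ψ M => rfl
  have h2 : two (scalar τ ea) (scalar τ ec) (X i0) (X i1) =
      ∑ i, (evK κ X (r i))ᵀ * evK κ X (r i) +
        ∑ j, (evK κ X (s j) * evK κ X (t j) - evK κ X (t j) * evK κ X (s j)) := by
    apply inj
    rw [map_two, sc, sc, ← lift_poly i0 i1 _ _ X0, h1]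
    simp only [map_add, map_sum, map_mul, map_sub, tr, fun i => (adj_eval hX0s (kr i).1).2,
      fun i => (kr i).2, fun i => (ks i).2, fun i => (kt i).2]
  rw [← sc, ← sc, ← map_two, h2]
  simp only [map_add, map_sum, map_mul, map_sub, tr, trace_add, trace_sum, trace_sub]
  have z : ∀ j, (ψ1.mapMatrix (evK κ X (s j)) * ψ1.mapMatrix (evK κ X (t j))).trace -
      (ψ1.mapMatrix (evK κ X (t j)) * ψ1.mapMatrix (evK κ X (s j))).trace = 0 := fun j => by
    rw [trace_mul_comm, sub_self]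
  simp only [z, Finset.sum_const_zero, add_zero]
  exact Finset.sum_nonneg fun i _ => trace_tr_mul _

lemma all_symm {τ E : Type} [Fintype τ] [DecidableEq τ] [Field E] (ψ0 ψ1 : E →+* ℝ)
    {i0 i1 : Fin g} {a c : ℝ} {big : RExpr g}
    (h : ∀ X : Fin g → Matrix τ τ E, (∀ i, (X i)ᵀ = X i) → Dom (fun i => ψ0.mapMatrix (X i)) big →
      0 ≤ (two (algebraMap ℝ _ a) (algebraMap ℝ _ c) (ψ1.mapMatrix (X i0))
        (ψ1.mapMatrix (X i1))).trace)
    (X0 : Fin g → Matrix τ τ ℝ) (hX0 : ∀ i, (X0 i)ᵀ = X0 i) (hd : Dom X0 big)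
    (hent : ∀ i p q, ∃ e, ψ0 e = X0 i p q)
    (Y : Fin g → Matrix τ τ ℝ) (hY : ∀ i, (Y i)ᵀ = Y i) :
    0 ≤ (two (algebraMap ℝ _ a) (algebraMap ℝ _ c) (Y i0) (Y i1)).trace := by
  have : CharZero E := ψ0.charZero
  let XE : Fin g → Matrix τ τ E := fun i => (X0 i).map (Function.invFun ψ0)
  have hXE : ∀ i, ψ0.mapMatrix (XE i) = X0 i := fun i => by
    ext p q
    exact Function.invFun_eq (hent i p q)
  have hXEs : ∀ i, (XE i)ᵀ = XE i := fun i => by simp only [XE, ← transpose_map, hX0 i]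
  have rat : ∀ Z : Fin g → Matrix τ τ ℚ, (∀ i, (Z i)ᵀ = Z i) →
      0 ≤ (two (algebraMap ℝ _ a) (algebraMap ℝ _ c) ((Z i0).map (Rat.cast : ℚ → ℝ))
        ((Z i1).map (Rat.cast : ℚ → ℝ))).trace := by
    intro Z hZ
    let ZR : Fin g → Matrix τ τ ℝ := fun i => (Z i).map Rat.cast
    let W : Fin g → Matrix τ τ ℝ := fun i => ψ1.mapMatrix (XE i)
    let f : ℝ → ℝ := fun u => (two (algebraMap ℝ _ a) (algebraMap ℝ _ c)
      (W i0 + u • (ZR i0 - W i0)) (W i1 + u • (ZR i1 - W i1))).trace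
    have fc : Continuous f := (cont_two _ _ (by fun_prop) (by fun_prop)).matrix_trace
    have fin := line _ X0 (fun i => ZR i - X0 i) ((dom_iff _ _).1 hd)
    have dense : Dense (Set.range (Rat.cast : ℚ → ℝ) \ _) := Rat.denseRange_cast.sdiff_finite fin
    have : 0 ≤ f 1 := by
      refine dense.induction (P := fun u => 0 ≤ f u) ?_ (isClosed_le continuous_const fc) 1
      rintro _ ⟨⟨q, rfl⟩, hq⟩
      simp only [Set.mem_ofPred_eq, not_not] at hq
      have e : ∀ (ψ : E →+* ℝ) (i : Fin g),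
          ψ.mapMatrix (XE i + (q : E) • ((Z i).map Rat.cast - XE i)) =
            ψ.mapMatrix (XE i) + (q : ℝ) • (ZR i - ψ.mapMatrix (XE i)) := by
        intro ψ i
        ext p p'
        simp [ZR]
      have := h (fun i => XE i + (q : E) • ((Z i).map Rat.cast - XE i))
        (fun i => by simp only [transpose_add, transpose_smul, transpose_sub, hXEs,
          ← transpose_map, hZ])
        (by simp only [e, hXE]; exact (dom_iff _ _).2 hq)
      simp only [e] at this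
      exact this
    simpa [f] using this
  let F : (Fin g → τ → τ → ℝ) → ℝ := fun U => (two (algebraMap ℝ (Matrix τ τ ℝ) a)
    (algebraMap ℝ _ c) (of (U i0) + (of (U i0))ᵀ) (of (U i1) + (of (U i1))ᵀ)).trace
  have c0 : ∀ i, Continuous fun U : Fin g → τ → τ → ℝ => (of (U i) : Matrix τ τ ℝ) :=
    fun i => continuous_apply i
  have Fc : Continuous F :=
    (cont_two _ _ ((c0 _).add (c0 _).matrix_transpose)
      ((c0 _).add (c0 _).matrix_transpose)).matrix_trace
  have dr : DenseRange (Pi.map fun _ : Fin g => Pi.map fun _ : τ => Pi.map fun _ : τ =>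
      (Rat.cast : ℚ → ℝ)) :=
    DenseRange.piMap fun _ => DenseRange.piMap fun _ => DenseRange.piMap fun _ =>
      Rat.denseRange_cast
  have hF : ∀ U, 0 ≤ F U := by
    intro U0
    refine dr.induction_on (p := fun U => 0 ≤ F U) U0 (isClosed_le continuous_const Fc) ?_
    intro U
    have h1 := rat (fun i => of (U i) + (of (U i))ᵀ) (fun i => by simp [add_comm])
    have e : ∀ i, (of (U i) + (of (U i))ᵀ).map (Rat.cast : ℚ → ℝ) =
        of ((Pi.map (fun _ : Fin g => Pi.map fun _ : τ => Pi.map fun _ : τ =>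
          (Rat.cast : ℚ → ℝ)) U) i) + (of ((Pi.map (fun _ : Fin g => Pi.map fun _ : τ =>
            Pi.map fun _ : τ => (Rat.cast : ℚ → ℝ)) U) i))ᵀ := by
      intro i; ext p q; simp
    rw [e, e] at h1
    exact h1
  have h2 := hF fun i p q => Y i p q / 2
  have e : ∀ i, (of (fun p q => Y i p q / 2) + (of (fun p q => Y i p q / 2))ᵀ : Matrix τ τ ℝ) =
      Y i := by
    intro i
    ext p q
    have := congrFun (congrFun (hY i) p) q
    simp only [transpose_apply] at this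
    simp [this]
  simp only [F, e] at h2
  exact h2

theorem main (g : ℕ) (hg : 2 ≤ g) : ∃ p : FreeAlgebra ℝ (Fin g), TracePositive p ∧
    ¬ ∃ (m k : ℕ) (r : Fin m → RExpr g) (s t : Fin k → RExpr g),
      (∀ i, (r i).Nondegenerate) ∧ (∀ j, (s j).Nondegenerate ∧ (t j).Nondegenerate) ∧
      ∀ n, Cert (Fin n) p r s t := by
  obtain ⟨a, a0, a1, htr⟩ := exists_transc
  let i0 : Fin g := ⟨0, by omega⟩
  let i1 : Fin g := ⟨1, by omega⟩
  have i01 : i1 ≠ i0 := by simp [i0, i1]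
  have hK : a * Kc a = 2 * a ^ 3 - H a := by
    rw [H_eq a0.le (by linarith), Kc]; field_simp; ring
  refine ⟨poly i0 i1 a (a * Kc a), fun n X hX => ?_, ?_⟩
  · rw [lift_poly]
    exact two_nonneg a0 a1 (hX i0) (hX i1)
  rintro ⟨m, k, r, s, t, hr, hst, hc⟩
  let L := List.ofFn r ++ (List.ofFn s ++ List.ofFn t)
  have hL : ∀ e, e ∈ L ↔ (e ∈ Set.range r ∨ e ∈ Set.range s ∨ e ∈ Set.range t) := by
    intro e; simp [L, List.mem_ofFn']
  obtain ⟨N, X0, hX0, hd⟩ := symPt_sumL (L := L) (by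
    intro e he
    rcases (hL e).1 he with ⟨i, rfl⟩ | ⟨i, rfl⟩ | ⟨i, rfl⟩
    exacts [hr i, (hst i).1, (hst i).2])
  obtain ⟨E, _, ψ0, ψ1, hS, ⟨ea, ea0, ea1⟩, eb, eb0, eb1⟩ := deform a (H a) htr
    (consts (sumL L) ∪ Finset.univ.image fun z : Fin g × Fin (N + 1) × Fin (N + 1) =>
      X0 z.1 z.2.1 z.2.2)
  have c0 : ψ0 (2 * ea ^ 3 - eb) = a * Kc a := by
    rw [hK, map_sub, map_mul, map_pow, ea0, eb0, map_ofNat]
  have c1 : ψ1 (2 * ea ^ 3 - eb) < a * Kc a := by
    rw [hK, map_sub, map_mul, map_pow, ea1, map_ofNat]; linarith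
  obtain ⟨n, x, y, hx, hy, hneg⟩ := two_neg a0 a1 c1
  let μ := Fin 5 × Fin (n + 1)
  have hc' := cert_any hc (μ × Fin (N + 1))
  rw [← c0] at hc'
  have hc'' : Cert (μ × Fin (N + 1)) (poly i0 i1 (ψ0 ea) (ψ0 (2 * ea ^ 3 - eb))) r s t := by
    rwa [ea0]
  have tr := transfer ψ0 ψ1 hc'' (big := sumL L)
    (fun e he => ⟨consts_sumL e ((hL e).2 he), fun X hX =>
      (dom_iff _ _).2 (dom_sumL ((dom_iff _ _).1 hX) e ((hL e).2 he))⟩)
    (fun c hc => hS c (Finset.mem_union_left _ hc))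
  let f : Matrix μ μ ℝ →ₐ[ℝ] Matrix (μ × Fin (N + 1)) (μ × Fin (N + 1)) ℝ :=
    (reindexAlgEquiv ℝ ℝ (Equiv.prodComm _ _)).toAlgHom.comp (amp (Fin (N + 1)) μ)
  have fs : ∀ M, Mᵀ = M → (f M)ᵀ = f M := fun M hM => by simp [f, amp_symm hM]
  have ft : ∀ M, (f M).trace = (N + 1 : ℕ) * M.trace := fun M => by
    have := amp_trace (μ := Fin (N + 1)) M
    rw [Fintype.card_fin] at this
    rw [← this]
    simp only [f, trace]
    exact Fintype.sum_equiv (Equiv.prodComm _ _) _ _ fun z => rfl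
  have := all_symm ψ0 ψ1 tr (fun i => amp μ _ (X0 i)) (fun i => amp_symm (hX0 i))
    (map_alg (amp μ _) hd).1 (fun i p q => by
      rw [amp_apply]
      split_ifs
      · exact hS _ (Finset.mem_union_right _ (Finset.mem_image.2 ⟨(i, p.2, q.2), by simp, rfl⟩))
      · exact ⟨0, map_zero _⟩)
    (fun i => if i = i0 then f x else f y) (fun i => by split_ifs; exacts [fs x hx, fs y hy])
  simp only [if_true, i01, if_false, ea1] at this
  rw [← f.commutes, ← f.commutes, ← map_two, ft] at this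
  have hN : (0 : ℝ) < (N + 1 : ℕ) := by positivity
  nlinarith

end Pool.Agent.H552Z.TP
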