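import Pool.Agent.H552Z.TP.Weyl
import Pool.Agent.H552Z.TP.Fn

/-! The core polynomial and its trace positivity at the critical constant. -/

namespace Pool.Agent.H552Z.TP

open Matrix Finset

/-- `Z = A² - A'` with `A = T'T - a`, `A' = TT' - a`. -/
def zed {A : Type} [Ring A] (a T T' : A) : A := (T' * T - a) * (T' * T - a) - (T * T' - a)

/-- the penalty -/
def pen {A : Type} [Ring A] (Z S R : A) : A :=
  Z * S * (S * Z) + R * R + (1 - R * S) * (1 - S * R) + Z * Z + (Z + Z)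

/-- the core polynomial -/
def core {A : Type} [Ring A] (a c T T' S R : A) : A :=
  c * pen (zed a T T') S R + (a + a + a + a) * ((T' * T - a) * (T' * T - a) * (T' * T - a))

lemma map_core {A B F : Type} [Ring A] [Ring B] [FunLike F A B] [RingHomClass F A B] (f : F)
    (a c T T' S R : A) :
    f (core a c T T' S R) = core (f a) (f c) (f T) (f T') (f S) (f R) := by
  simp [core, pen, zed]

variable {n : Type} [Fintype n] [DecidableEq n]

lemma frob (B C : Matrix n n ℝ) : 2 * (Bᵀ * C).trace ≤ (Bᵀ * B).trace + (Cᵀ * C).trace := by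
  simp only [trace, Matrix.diag_apply, Matrix.mul_apply, transpose_apply, Finset.mul_sum, ← Finset.sum_add_distrib]
  refine Finset.sum_le_sum fun i _ => Finset.sum_le_sum fun j _ => ?_
  nlinarith [sq_nonneg (B j i - C j i)]

lemma conj_mul {U : Matrix n n ℝ} (h : Uᵀ * U = 1) (d e : n → ℝ) :
    U * diagonal d * Uᵀ * (U * diagonal e * Uᵀ) = U * diagonal (fun i => d i * e i) * Uᵀ := by
  rw [← diagonal_mul_diagonal]
  calc U * diagonal d * Uᵀ * (U * diagonal e * Uᵀ)
      = U * diagonal d * (Uᵀ * U) * diagonal e * Uᵀ := by simp only [Matrix.mul_assoc]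
    _ = _ := by rw [h]; simp only [Matrix.mul_assoc, Matrix.one_mul]

lemma conj_sub_scalar {U : Matrix n n ℝ} (h : U * Uᵀ = 1) (d : n → ℝ) (s : ℝ) :
    U * diagonal d * Uᵀ - algebraMap ℝ _ s = U * diagonal (fun i => d i - s) * Uᵀ := by
  have : (algebraMap ℝ (Matrix n n ℝ) s) = U * diagonal (fun _ => s) * Uᵀ := by
    rw [← smul_one_eq_diagonal, Matrix.mul_smul, Matrix.smul_mul, Matrix.mul_one, h,
      Algebra.algebraMap_eq_smul_one]
  rw [this, ← Matrix.sub_mul, ← Matrix.mul_sub, diagonal_sub]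

lemma trace_conj {U : Matrix n n ℝ} (h : Uᵀ * U = 1) (d : n → ℝ) :
    (U * diagonal d * Uᵀ).trace = ∑ i, d i := by
  rw [trace_mul_comm, ← Matrix.mul_assoc, h, Matrix.one_mul, trace_diagonal]

lemma pen_ge {Z S R : Matrix n n ℝ} {z : n → ℝ} (hZ : Diag Z z) (hS : Sᵀ = S) (hR : Rᵀ = R) :
    4 * ∑ i, max (z i) 0 ≤ (pen Z S R).trace := by
  have htr := hZ.trace_eq
  obtain ⟨W, h1, h2, hW⟩ := hZ
  have hZt : Zᵀ = Z := by rw [hW]; simp [transpose_mul, Matrix.mul_assoc]
  let ε : n → ℝ := fun i => if 0 ≤ z i then 1 else -1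
  set V := W * diagonal ε * Wᵀ with hV
  have hVt : Vᵀ = V := by rw [hV]; simp [transpose_mul, Matrix.mul_assoc]
  have hVV : V * V = 1 := by
    rw [hV, conj_mul h1]
    have : (fun i => ε i * ε i) = fun _ => (1 : ℝ) := by
      funext i; by_cases h : 0 ≤ z i <;> simp [ε, h]
    rw [this]
    have h3 : (diagonal (fun _ : n => (1 : ℝ))) = 1 := rfl
    rw [h3, Matrix.mul_one, h2]
  have hZV : (Z * V).trace = ∑ i, z i * ε i := by
    rw [hW, hV, conj_mul h1, trace_conj h1]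
  have f1 := frob (S * Z) (R * V)
  have f2 := frob Z ((1 - S * R) * V)
  have cyc : ∀ M : Matrix n n ℝ, (V * M * V).trace = M.trace := by
    intro M
    rw [trace_mul_comm, ← Matrix.mul_assoc, hVV, Matrix.one_mul]
  have e1 : ((R * V)ᵀ * (R * V)).trace = (R * R).trace := by
    rw [← cyc (R * R), transpose_mul, hVt, hR]; simp only [Matrix.mul_assoc]
  have e2 : (((1 - S * R) * V)ᵀ * ((1 - S * R) * V)).trace =
      ((1 - R * S) * (1 - S * R)).trace := by
    rw [← cyc ((1 - R * S) * (1 - S * R)), transpose_mul, hVt, transpose_sub, transpose_mul, hR, hS,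
      transpose_one]
    simp only [Matrix.mul_assoc]
  have e3 : ((S * Z)ᵀ * (R * V)).trace + (Zᵀ * ((1 - S * R) * V)).trace = (Z * V).trace := by
    rw [← trace_add, transpose_mul, hZt, hS]
    congr 1
    noncomm_ring
  rw [e1] at f1
  rw [e2] at f2
  have e4 : (S * Z)ᵀ * (S * Z) = Z * S * (S * Z) := by rw [transpose_mul, hZt, hS]
  rw [e4] at f1
  have e5 : Zᵀ * Z = Z * Z := by rw [hZt]
  rw [e5] at f2
  have e6 : 4 * ∑ i, max (z i) 0 = 2 * ∑ i, z i * ε i + 2 * ∑ i, z i := by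
    simp only [Finset.mul_sum, ← Finset.sum_add_distrib]
    refine Finset.sum_congr rfl fun i _ => ?_
    by_cases h : 0 ≤ z i
    · simp only [ε, h, if_true, max_eq_left h]; ring
    · simp only [ε, h, if_false, max_eq_right (le_of_lt (not_le.1 h))]; ring
  simp only [pen, trace_add]
  linarith

theorem core_nonneg {s : ℝ} (h0 : 0 < s) (h1 : s ≤ 1 / 4) (T S R : Matrix n n ℝ)
    (hS : Sᵀ = S) (hR : Rᵀ = R) :
    0 ≤ (core (algebraMap ℝ _ s) (algebraMap ℝ _ (s * Kc s)) T Tᵀ S R).trace := by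
  have hp : (Tᵀ * T).PosSemidef := by
    simpa using Matrix.posSemidef_conjTranspose_mul_self T
  have hp' : (T * Tᵀ).PosSemidef := by
    simpa using Matrix.posSemidef_self_mul_conjTranspose T
  have heq : hp'.1.eigenvalues = hp.1.eigenvalues :=
    (Matrix.IsHermitian.eigenvalues_eq_eigenvalues_iff _ _).2 (Matrix.charpoly_mul_comm _ _)
  obtain ⟨U, u1, u2, hU⟩ := diag_eigenvalues hp.1
  obtain ⟨V, v1, v2, hV⟩ := diag_eigenvalues hp'.1
  rw [heq] at hV
  set d := hp.1.eigenvalues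
  have hd : ∀ i, 0 ≤ d i := fun i => hp.eigenvalues_nonneg i
  set x : n → ℝ := fun i => d i - s with hx
  have hA : Tᵀ * T - algebraMap ℝ _ s = U * diagonal x * Uᵀ := by rw [hU, conj_sub_scalar u2]
  have hA' : T * Tᵀ - algebraMap ℝ _ s = V * diagonal x * Vᵀ := by rw [hV, conj_sub_scalar v2]
  set Y := U * diagonal (fun i => x i * x i) * Uᵀ with hY
  set A' := V * diagonal x * Vᵀ with hA'def
  have hz : zed (algebraMap ℝ _ s) T Tᵀ = Y - A' := by rw [zed, hA, hA', conj_mul u1]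
  have hYt : Yᵀ = Y := by rw [hY]; simp [transpose_mul, Matrix.mul_assoc]
  have hAt : A'ᵀ = A' := by rw [hA'def]; simp [transpose_mul, Matrix.mul_assoc]
  obtain ⟨z, hZ⟩ := exists_diag (M := Y - A') (by rw [transpose_sub, hYt, hAt])
  have hpen := pen_ge hZ hS hR
  obtain ⟨W, w1, w2, hW⟩ := hZ
  set Zp := W * diagonal (fun i => max (z i) 0) * Wᵀ with hZp
  have hZpt : Zpᵀ = Zp := by rw [hZp]; simp [transpose_mul, Matrix.mul_assoc]
  obtain ⟨m, hM⟩ := exists_diag (M := A' + Zp) (by rw [transpose_add, hZpt, hAt])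
  have dY : Diag Y (fun i => x i * x i) := ⟨U, u1, u2, rfl⟩
  have dA : Diag A' x := ⟨V, v1, v2, rfl⟩
  have le1 : ∀ y : n → ℝ, y ⬝ᵥ A' *ᵥ y ≤ y ⬝ᵥ (A' + Zp) *ᵥ y := by
    intro y
    rw [add_mulVec, dotProduct_add, hZp, quad_conj W]
    have : 0 ≤ ∑ i, max (z i) 0 * (Wᵀ *ᵥ y) i ^ 2 :=
      Finset.sum_nonneg fun i _ => mul_nonneg (le_max_right _ _) (sq_nonneg _)
    linarith
  have le2 : ∀ y : n → ℝ, y ⬝ᵥ Y *ᵥ y ≤ y ⬝ᵥ (A' + Zp) *ᵥ y := by
    intro y
    have e : Y = A' + (Y - A') := by abel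
    rw [e, hW, add_mulVec, add_mulVec, dotProduct_add, dotProduct_add, hZp, quad_conj W,
      quad_conj W]
    have : ∑ i, z i * (Wᵀ *ᵥ y) i ^ 2 ≤ ∑ i, max (z i) 0 * (Wᵀ *ᵥ y) i ^ 2 :=
      Finset.sum_le_sum fun i _ => mul_le_mul_of_nonneg_right (le_max_left _ _) (sq_nonneg _)
    linarith
  have s1 := sum_mono dA hM le1 (v_mono h0 h1)
  have s2 := sum_mono dY hM le2 (u_anti h0 h1)
  have t1 : ∑ i, m i = ∑ i, x i + ∑ i, max (z i) 0 := by
    rw [← hM.trace_eq, trace_add, dA.trace_eq, hZp, trace_conj w1]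
  have s3 : ∑ i, u s (x i * x i) ≤ ∑ i, (u s (x i) + x i ^ 3) :=
    Finset.sum_le_sum fun i _ => by
      have := u_sub h0 h1 (x := x i) (by simp only [hx]; linarith [hd i])
      rwa [sq] at this
  simp only [Finset.sum_add_distrib, Finset.sum_neg_distrib, ← Finset.mul_sum] at s1 s2 s3
  have t2 : ((Tᵀ * T - algebraMap ℝ _ s) * (Tᵀ * T - algebraMap ℝ _ s) *
      (Tᵀ * T - algebraMap ℝ _ s)).trace = ∑ i, x i ^ 3 := by
    rw [hA, conj_mul u1, conj_mul u1, trace_conj u1]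
    exact Finset.sum_congr rfl fun i _ => by ring
  rw [core, hz, ← map_add, ← map_add, ← map_add, ← Algebra.smul_def, ← Algebra.smul_def, trace_add,
    trace_smul, trace_smul, t2, smul_eq_mul, smul_eq_mul]
  have hK := Kc_pos h0 h1
  have k1 : Kc s * (4 * ∑ i, max (z i) 0) ≤ Kc s * (pen (Y - A') S R).trace :=
    mul_le_mul_of_nonneg_left hpen hK.le
  have k2 : 0 ≤ Kc s * (pen (Y - A') S R).trace + 4 * ∑ i, x i ^ 3 := by
    rw [t1] at s1
    nlinarith
  have := mul_nonneg h0.le k2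
  nlinarith

end Pool.Agent.H552Z.TP
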