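import Pool.Agent.H552Z.TP.Pos

/-! Reduction to two variables, and the test tuples. -/

namespace Pool.Agent.H552Z.TP

open Matrix Finset

/-- coefficients of `24` times the Lagrange basis for the nodes `0, 1, 2, 3, 4` -/
def lag : Fin 5 → Fin 5 → ℤ :=
  ![![24, -50, 35, -10, 1], ![0, 96, -104, 36, -4], ![0, -72, 114, -48, 6],
    ![0, 32, -56, 28, -4], ![0, -6, 11, -6, 1]]

/-- `24` times the Lagrange idempotent -/
def idem {A : Type} [Ring A] (a : Fin 5) (x : A) : A := ∑ k : Fin 5, lag a k • x ^ (k : ℕ)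

/-- five symmetric polynomials in two variables -/
def qv {A : Type} [Ring A] (k : Fin 5) (x y : A) : A :=
  ∑ a : Fin 5, if a = k then (576 : ℤ) • (idem k x * y * idem k x)
    else idem a x * y * idem k x * y * (idem k x * y * idem a x)

/-- the polynomial in two variables -/
def two {A : Type} [Ring A] (a c x y : A) : A :=
  core a c (qv 0 x y * qv 1 x y * qv 2 x y) (qv 2 x y * qv 1 x y * qv 0 x y) (qv 3 x y) (qv 4 x y)

lemma map_idem {A B F : Type} [Ring A] [Ring B] [FunLike F A B] [RingHomClass F A B] (f : F)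
    (a : Fin 5) (x : A) : f (idem a x) = idem a (f x) := by
  simp only [idem, map_sum, map_zsmul, map_pow]

lemma map_qv {A B F : Type} [Ring A] [Ring B] [FunLike F A B] [RingHomClass F A B] (f : F)
    (k : Fin 5) (x y : A) : f (qv k x y) = qv k (f x) (f y) := by
  simp only [qv, map_sum]
  refine Finset.sum_congr rfl fun a _ => ?_
  split_ifs <;> simp only [map_zsmul, map_mul, map_idem]

lemma map_two {A B F : Type} [Ring A] [Ring B] [FunLike F A B] [RingHomClass F A B] (f : F)
    (a c x y : A) : f (two a c x y) = two (f a) (f c) (f x) (f y) := by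
  simp only [two, map_core, map_mul, map_qv]

section
variable {n : Type} [Fintype n] [DecidableEq n]

lemma idem_symm (a : Fin 5) {x : Matrix n n ℝ} (hx : xᵀ = x) : (idem a x)ᵀ = idem a x := by
  simp only [idem, transpose_sum, transpose_smul, transpose_pow, hx]

lemma qv_symm (k : Fin 5) {x y : Matrix n n ℝ} (hx : xᵀ = x) (hy : yᵀ = y) :
    (qv k x y)ᵀ = qv k x y := by
  simp only [qv, transpose_sum]
  refine Finset.sum_congr rfl fun a _ => ?_
  split_ifs <;>
    simp only [transpose_smul, transpose_mul, idem_symm _ hx, hy, Matrix.mul_assoc]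

theorem two_nonneg {s : ℝ} (h0 : 0 < s) (h1 : s ≤ 1 / 4) {x y : Matrix n n ℝ} (hx : xᵀ = x)
    (hy : yᵀ = y) : 0 ≤ (two (algebraMap ℝ _ s) (algebraMap ℝ _ (s * Kc s)) x y).trace := by
  have := core_nonneg h0 h1 (qv 0 x y * qv 1 x y * qv 2 x y) (qv 3 x y) (qv 4 x y)
    (qv_symm _ hx hy) (qv_symm _ hx hy)
  simp only [transpose_mul, qv_symm _ hx hy, ← Matrix.mul_assoc] at this
  exact this

end

section
variable {B : Type} [Ring B]

/-- first block matrix -/
def blk1 (B : Type) [Ring B] : Matrix (Fin 5) (Fin 5) B := diagonal fun a => ((a : ℕ) : B)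

/-- second block matrix -/
def blk2 (Y : Fin 5 → B) : Matrix (Fin 5) (Fin 5) B := of fun a b => if a = b then Y a else 1

lemma idem_blk (a : Fin 5) : idem a (blk1 B) = single a a (24 : B) := by
  have key : ∀ a b : Fin 5, ∑ k : Fin 5, lag a k * ((b : ℕ) : ℤ) ^ (k : ℕ) =
      if a = b then 24 else 0 := by decide
  ext i j
  simp only [idem, blk1, diagonal_pow, Matrix.sum_apply, Matrix.smul_apply, diagonal_apply,
    Pi.pow_apply, single_apply]
  by_cases hij : i = j
  · subst hij
    have := congrArg (Int.cast : ℤ → B) (key a i)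
    push_cast at this
    simp only [if_true, zsmul_eq_mul, and_self]
    exact this
  · have : ¬ (a = i ∧ a = j) := fun h => hij (h.1.symm.trans h.2)
    simp [hij, this]

lemma qv_blk (k : Fin 5) (Y : Fin 5 → B) :
    qv k (blk1 B) (blk2 Y) = scalar (Fin 5) ((331776 : ℤ) • Y k) := by
  have : ∀ a : Fin 5, (if a = k then (576 : ℤ) • (idem k (blk1 B) * blk2 Y * idem k (blk1 B))
      else idem a (blk1 B) * blk2 Y * idem k (blk1 B) * blk2 Y *
        (idem k (blk1 B) * blk2 Y * idem a (blk1 B))) = single a a ((331776 : ℤ) • Y k) := by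
    intro a
    have c24 : (24 : B) = (24 : ℤ) • (1 : B) := by simp
    split_ifs with h
    · subst h
      simp only [idem_blk, single_mul_mul_single, smul_single, blk2, of_apply, if_true]
      congr 1
      rw [c24]
      simp only [smul_mul_assoc, mul_smul_comm, one_mul, mul_one, smul_smul]
      norm_num
    · have h' : ¬ k = a := fun e => h e.symm
      simp only [idem_blk, single_mul_mul_single, blk2, of_apply, if_true, h, h', if_false]
      congr 1
      rw [c24]
      simp only [smul_mul_assoc, mul_smul_comm, one_mul, mul_one, smul_smul]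
      norm_num
  rw [qv, Finset.sum_congr rfl fun a _ => this a]
  ext i j
  simp only [Matrix.sum_apply, single_apply, scalar_apply, diagonal_apply]
  by_cases hij : i = j
  · subst hij; simp
  · have : ∀ a : Fin 5, ¬ (a = i ∧ a = j) := fun a h => hij (h.1.symm.trans h.2)
    simp [hij, this]

end

/-- five symmetric matrices are simulated by two -/
theorem two_of_five {m : Type} [Fintype m] [DecidableEq m] (a c : ℝ) (Y : Fin 5 → Matrix m m ℝ)
    (hY : ∀ k, (Y k)ᵀ = Y k) :
    ∃ x y : Matrix (Fin 5 × m) (Fin 5 × m) ℝ, xᵀ = x ∧ yᵀ = y ∧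
      (two (algebraMap ℝ _ a) (algebraMap ℝ _ c) x y).trace =
        5 * (core (algebraMap ℝ _ a) (algebraMap ℝ _ c) (Y 0 * Y 1 * Y 2) (Y 2 * Y 1 * Y 0)
          (Y 3) (Y 4)).trace := by
  let Y' : Fin 5 → Matrix m m ℝ := fun k => (1 / 331776 : ℝ) • Y k
  let f := Matrix.compAlgEquiv (Fin 5) m ℝ ℝ
  refine ⟨f (blk1 _), f (blk2 Y'), ?_, ?_, ?_⟩
  · ext ⟨i, p⟩ ⟨j, q⟩
    simp only [f, transpose_apply, compAlgEquiv_apply, comp_apply, blk1, diagonal_apply]
    by_cases h : i = j
    · subst h
      simp only [if_true, Matrix.natCast_apply, eq_comm]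
    · have h' : ¬ j = i := fun e => h e.symm
      simp [h, h']
  · ext ⟨i, p⟩ ⟨j, q⟩
    simp only [f, transpose_apply, compAlgEquiv_apply, comp_apply, blk2, of_apply]
    by_cases h : i = j
    · subst h
      have := congrFun (congrFun (hY i) p) q
      simp only [transpose_apply] at this
      simp [Y', this]
    · have h' : ¬ j = i := fun e => h e.symm
      simp [h, h', one_apply, eq_comm]
  · have hq : ∀ k, qv k (blk1 _) (blk2 Y') = scalar (Fin 5) (Y k) := by
      intro k
      rw [qv_blk]
      congr 1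
      simp only [Y']
      rw [← Int.cast_smul_eq_zsmul ℝ, smul_smul]
      norm_num
    have hs : ∀ r : ℝ, algebraMap ℝ (Matrix (Fin 5) (Fin 5) (Matrix m m ℝ)) r =
        scalar (Fin 5) (algebraMap ℝ _ r) := fun r => rfl
    rw [← f.commutes a, ← f.commutes c, ← map_two f, two]
    simp only [hq, hs, ← map_mul]
    rw [← map_core]
    generalize core (algebraMap ℝ (Matrix m m ℝ) a) _ _ _ _ _ = M
    simp [f, trace, Fintype.sum_prod_type]

end Pool.Agent.H552Z.TP
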