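import Mathlib

/-! Monotonicity of spectral sums in the Loewner order, for real symmetric matrices. -/

namespace Pool.Agent.H552Z.TP

open Matrix Finset

variable {n : Type} [Fintype n] [DecidableEq n]

/-- `M = U diag(d) Uᵀ` with `U` orthogonal. -/
def Diag (M : Matrix n n ℝ) (d : n → ℝ) : Prop :=
  ∃ U : Matrix n n ℝ, Uᵀ * U = 1 ∧ U * Uᵀ = 1 ∧ M = U * diagonal d * Uᵀ

lemma diag_eigenvalues {M : Matrix n n ℝ} (h : M.IsHermitian) : Diag M h.eigenvalues := by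
  refine ⟨(h.eigenvectorUnitary : Matrix n n ℝ), ?_, ?_, ?_⟩
  · have := (Matrix.mem_unitaryGroup_iff').1 h.eigenvectorUnitary.2
    simpa [star_eq_conjTranspose] using this
  · have := (Matrix.mem_unitaryGroup_iff).1 h.eigenvectorUnitary.2
    simpa [star_eq_conjTranspose] using this
  · have := h.spectral_theorem
    rw [Unitary.conjStarAlgAut_apply] at this
    simpa [star_eq_conjTranspose] using this

lemma exists_diag {M : Matrix n n ℝ} (h : Mᵀ = M) : ∃ d, Diag M d := by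
  have : M.IsHermitian := by
    unfold Matrix.IsHermitian
    simpa using h
  exact ⟨_, diag_eigenvalues this⟩

lemma quad_conj (U : Matrix n n ℝ) (d x : n → ℝ) :
    x ⬝ᵥ (U * diagonal d * Uᵀ) *ᵥ x = ∑ i, d i * (Uᵀ *ᵥ x) i ^ 2 := by
  rw [← mulVec_mulVec, ← mulVec_mulVec, dotProduct_mulVec, ← mulVec_transpose]
  simp only [dotProduct, mulVec_diagonal]
  exact Finset.sum_congr rfl fun i _ => by ring

lemma norm_conj {U : Matrix n n ℝ} (h : U * Uᵀ = 1) (x : n → ℝ) :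
    ∑ i, (Uᵀ *ᵥ x) i ^ 2 = ∑ i, x i ^ 2 := by
  have := quad_conj U (fun _ => 1) x
  simp only [one_mul] at this
  rw [← this]
  have h1 : (diagonal (fun _ : n => (1 : ℝ))) = 1 := rfl
  rw [h1, mul_one, h, one_mulVec]
  simp [dotProduct, sq]

lemma Diag.trace_eq {M : Matrix n n ℝ} {d : n → ℝ} (h : Diag M d) : M.trace = ∑ i, d i := by
  obtain ⟨U, h1, -, rfl⟩ := h
  rw [trace_mul_comm, ← Matrix.mul_assoc, h1, Matrix.one_mul, trace_diagonal]

lemma count_le {M N : Matrix n n ℝ} {a b : n → ℝ} (hM : Diag M a) (hN : Diag N b)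
    (hle : ∀ x : n → ℝ, x ⬝ᵥ M *ᵥ x ≤ x ⬝ᵥ N *ᵥ x) (c : ℝ) :
    (univ.filter fun i => c ≤ a i).card ≤ (univ.filter fun j => c ≤ b j).card := by
  obtain ⟨U, hU1, hU2, rfl⟩ := hM
  obtain ⟨V, hV1, hV2, rfl⟩ := hN
  by_contra hlt
  push Not at hlt
  let ext : ({i // c ≤ a i} → ℝ) →ₗ[ℝ] (n → ℝ) :=
    { toFun := fun y i => if h : c ≤ a i then y ⟨i, h⟩ else 0
      map_add' := fun y z => by funext i; by_cases h : c ≤ a i <;> simp [h]
      map_smul' := fun r y => by funext i; by_cases h : c ≤ a i <;> simp [h] }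
  let res : (n → ℝ) →ₗ[ℝ] ({j // c ≤ b j} → ℝ) := LinearMap.funLeft ℝ ℝ Subtype.val
  let L := res ∘ₗ (Matrix.mulVecLin (Vᵀ * U)) ∘ₗ ext
  have hk : LinearMap.ker L ≠ ⊥ := by
    apply LinearMap.ker_ne_bot_of_finrank_lt
    simpa [Fintype.card_subtype] using hlt
  obtain ⟨y, hy, hy0⟩ := Submodule.exists_mem_ne_zero_of_ne_bot hk
  set x := U *ᵥ ext y with hx
  have hUx : Uᵀ *ᵥ x = ext y := by rw [hx, mulVec_mulVec, hU1, one_mulVec]
  have hw : ∀ j, c ≤ b j → (Vᵀ *ᵥ x) j = 0 := by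
    intro j hj
    have := congrFun (LinearMap.mem_ker.1 hy) ⟨j, hj⟩
    rw [hx, mulVec_mulVec]
    exact this
  have h1 := hle x
  rw [quad_conj, quad_conj] at h1
  have n1 := norm_conj hU2 x
  have n2 := norm_conj hV2 x
  have l1 : c * ∑ i, (Uᵀ *ᵥ x) i ^ 2 ≤ ∑ i, a i * (Uᵀ *ᵥ x) i ^ 2 := by
    rw [Finset.mul_sum]
    refine Finset.sum_le_sum fun i _ => ?_
    by_cases h : c ≤ a i
    · exact mul_le_mul_of_nonneg_right h (sq_nonneg _)
    · simp [hUx, ext, h]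
  have hw0 : ∃ j, (Vᵀ *ᵥ x) j ≠ 0 := by
    by_contra hall
    push Not at hall
    apply hy0
    have h0 : ∑ i, (Uᵀ *ᵥ x) i ^ 2 = 0 := by
      rw [n1, ← n2]; simp [hall]
    rw [Finset.sum_eq_zero_iff_of_nonneg (fun i _ => sq_nonneg _)] at h0
    funext i
    have := h0 i.1 (mem_univ _)
    rw [hUx] at this
    simpa [ext, i.2] using this
  have l2 : ∑ j, b j * (Vᵀ *ᵥ x) j ^ 2 < c * ∑ j, (Vᵀ *ᵥ x) j ^ 2 := by
    rw [Finset.mul_sum]
    obtain ⟨j0, hj0⟩ := hw0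
    refine Finset.sum_lt_sum (fun j _ => ?_) ⟨j0, mem_univ _, ?_⟩
    · by_cases h : c ≤ b j
      · simp [hw j h]
      · exact mul_le_mul_of_nonneg_right (le_of_lt (not_le.1 h)) (sq_nonneg _)
    · have : ¬ c ≤ b j0 := fun h => hj0 (hw j0 h)
      exact mul_lt_mul_of_pos_right (not_le.1 this) (by positivity)
  rw [n1] at l1
  rw [n2] at l2
  linarith

lemma sum_mono {M N : Matrix n n ℝ} {a b : n → ℝ} (hM : Diag M a) (hN : Diag N b)
    (hle : ∀ x : n → ℝ, x ⬝ᵥ M *ᵥ x ≤ x ⬝ᵥ N *ᵥ x) {v : ℝ → ℝ} (hv : Monotone v) :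
    ∑ i, v (a i) ≤ ∑ j, v (b j) := by
  have hall : ∀ I : Finset n, I.card ≤ (I.biUnion fun i => univ.filter fun j => a i ≤ b j).card := by
    intro I
    rcases I.eq_empty_or_nonempty with rfl | hI
    · simp
    obtain ⟨i0, hi0, hmin⟩ := I.exists_min_image a hI
    calc I.card ≤ (univ.filter fun i => a i0 ≤ a i).card :=
          card_le_card fun i hi => by simpa using hmin i hi
      _ ≤ (univ.filter fun j => a i0 ≤ b j).card := count_le hM hN hle _
      _ ≤ _ := card_le_card (subset_biUnion_of_mem (fun i => univ.filter fun j => a i ≤ b j) hi0)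
  obtain ⟨f, hf, hab⟩ := (Finset.all_card_le_biUnion_card_iff_exists_injective _).1 hall
  have hbij : Function.Bijective f := Finite.injective_iff_bijective.1 hf
  rw [← (Equiv.ofBijective f hbij).sum_comp fun j => v (b j)]
  exact Finset.sum_le_sum fun i _ => hv (by simpa using hab i)

end Pool.Agent.H552Z.TP
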